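import Mathlib
import Pool.Agent.Helper209.CX.A04

set_option autoImplicit false

/-!
One-dimensional Fourier facts.
-/

namespace Pool.Agent.H506R3.MagB

open MeasureTheory Set Filter Topology

/-- `e^{ix}` -/
noncomputable def ex (x : ℝ) : ℂ := Complex.exp ((x : ℂ) * Complex.I)

lemma norm_ex (x : ℝ) : ‖ex x‖ = 1 := Complex.norm_exp_ofReal_mul_I x

lemma ex_cont : Continuous ex := by unfold ex; fun_prop

lemma ex_add (x y : ℝ) : ex (x + y) = ex x * ex y := by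
  unfold ex
  rw [← Complex.exp_add]
  congr 1
  push_cast
  ring

lemma ex_zero : ex 0 = 1 := by simp [ex]

lemma ex_neg (x : ℝ) : ex (-x) = (starRingEnd ℂ) (ex x) := by
  unfold ex
  rw [← Complex.exp_conj]
  congr 1
  simp

lemma ex_re (x : ℝ) : (ex x).re = Real.cos x := by
  unfold ex
  rw [Complex.exp_ofReal_mul_I_re]

lemma ex_mul_neg (x : ℝ) : ex x * ex (-x) = 1 := by
  rw [← ex_add]; simp [ex_zero]

lemma ex_ne (x : ℝ) : ex x ≠ 0 := Complex.exp_ne_zero _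

lemma int_base (lam : ℝ) (hl : 0 < lam) : Integrable (fun s : ℝ => (((s : ℂ) ^ 2 + lam ^ 2)⁻¹)) := by
  have := (Helper209.CX.A04.cx_fourier ((lam : ℂ) * Complex.I) (by simp [hl]) 0).1
  refine this.congr (Eventually.of_forall fun s => ?_)
  simp only
  rw [mul_pow, Complex.I_sq]
  congr 1
  ring

lemma ft_base (lam : ℝ) (hl : 0 < lam) (x : ℝ) :
    ∫ s : ℝ, ex (s * x) * (((s : ℂ) ^ 2 + lam ^ 2)⁻¹) =
      ((Real.pi / lam * Real.exp (-(lam * |x|)) : ℝ) : ℂ) := by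
  have h := (Helper209.CX.A04.cx_fourier ((lam : ℂ) * Complex.I) (by simp [hl]) x).2
  have e1 : ∀ s : ℝ, ex (s * x) * (((s : ℂ) ^ 2 + lam ^ 2)⁻¹) =
      Complex.exp (Complex.I * s * x) * ((s : ℂ) ^ 2 - ((lam : ℂ) * Complex.I) ^ 2)⁻¹ := by
    intro s
    rw [mul_pow, Complex.I_sq]
    congr 1
    · unfold ex
      congr 1
      push_cast
      ring
    · congr 1
      ring
  simp_rw [e1]
  rw [h]
  have hl' : (lam : ℂ) ≠ 0 := by exact_mod_cast hl.ne'
  have e2 : Complex.exp (Complex.I * ((lam : ℂ) * Complex.I) * |x|) =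
      ((Real.exp (-(lam * |x|)) : ℝ) : ℂ) := by
    rw [Complex.ofReal_exp]
    congr 1
    have : Complex.I * ((lam : ℂ) * Complex.I) * |x| = (Complex.I * Complex.I) * (lam * |x|) := by
      ring
    rw [this, Complex.I_mul_I]
    push_cast
    ring
  rw [e2]
  push_cast
  have hI := Complex.I_ne_zero
  field_simp

/-- `1/(1+s²/λ²)` -/
noncomputable def uu (lam s : ℝ) : ℝ := (1 + s ^ 2 / lam ^ 2)⁻¹

lemma uu_eq (lam : ℝ) (hl : 0 < lam) (s : ℝ) :
    ((uu lam s : ℝ) : ℂ) = (lam : ℂ) ^ 2 * (((s : ℂ) ^ 2 + lam ^ 2)⁻¹) := by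
  have h1 : (1 + s ^ 2 / lam ^ 2) = (s ^ 2 + lam ^ 2) / lam ^ 2 := by field_simp; ring
  unfold uu
  rw [h1, inv_div, div_eq_mul_inv]
  push_cast
  rfl

lemma uu_pos (lam s : ℝ) : 0 < uu lam s := by unfold uu; positivity

lemma uu_cont (lam : ℝ) : Continuous (uu lam) := by
  unfold uu
  refine Continuous.inv₀ (by fun_prop) (fun s => ?_)
  positivity

lemma uu_int (lam : ℝ) (hl : 0 < lam) : Integrable (uu lam) := by
  have h := (int_base lam hl).const_mul ((lam : ℂ) ^ 2)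
  have h2 := h.re
  refine h2.congr (Eventually.of_forall fun s => ?_)
  simp only
  rw [← uu_eq lam hl]
  simp

lemma uu_ft (lam : ℝ) (hl : 0 < lam) (x : ℝ) :
    ∫ s : ℝ, ex (s * x) * ((uu lam s : ℝ) : ℂ) =
      ((Real.pi * lam * Real.exp (-(lam * |x|)) : ℝ) : ℂ) := by
  simp_rw [uu_eq lam hl]
  have : ∀ s : ℝ, ex (s * x) * ((lam : ℂ) ^ 2 * (((s : ℂ) ^ 2 + lam ^ 2)⁻¹)) =
      (lam : ℂ) ^ 2 * (ex (s * x) * (((s : ℂ) ^ 2 + lam ^ 2)⁻¹)) := by intro s; ring
  simp_rw [this]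
  rw [integral_const_mul, ft_base lam hl]
  push_cast
  have hl' : (lam : ℂ) ≠ 0 := by exact_mod_cast hl.ne'
  field_simp

lemma one_sub_cos_le (B s : ℝ) : (1 - Real.cos (s * B)) / s ^ 2 ≤ (B ^ 2 / 2 + 2) * (1 + s ^ 2)⁻¹ := by
  by_cases hs : s = 0
  · subst hs
    simp
    positivity
  have hs2 : 0 < s ^ 2 := by positivity
  rw [div_le_iff₀ hs2, mul_assoc, ← div_eq_inv_mul, ← mul_div_assoc, le_div_iff₀ (by positivity)]
  have h1 := Real.one_sub_sq_div_two_le_cos (x := s * B)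
  have h2 := Real.neg_one_le_cos (s * B)
  have h3 : 1 - Real.cos (s * B) ≤ s ^ 2 * (B ^ 2 / 2) := by nlinarith
  nlinarith

lemma one_sub_cos_nonneg (B s : ℝ) : 0 ≤ (1 - Real.cos (s * B)) / s ^ 2 := by
  have := Real.cos_le_one (s * B)
  apply div_nonneg (by linarith) (by positivity)

lemma int_one_sub_cos (B : ℝ) : Integrable (fun s : ℝ => (1 - Real.cos (s * B)) / s ^ 2) := by
  refine Integrable.mono' (integrable_inv_one_add_sq.const_mul (B ^ 2 / 2 + 2)) ?_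
    (Eventually.of_forall fun s => ?_)
  · apply Measurable.aestronglyMeasurable
    fun_prop
  · rw [Real.norm_eq_abs, abs_of_nonneg (one_sub_cos_nonneg B s)]
    exact one_sub_cos_le B s

lemma int_reg (B : ℝ) (hB : 0 ≤ B) (ε : ℝ) (hε : 0 < ε) :
    ∫ s : ℝ, (1 - Real.cos (s * B)) / (s ^ 2 + ε ^ 2) ≤ Real.pi * B := by
  have hb := int_base ε hε
  have h0 := ft_base ε hε 0
  have h1 := ft_base ε hε B
  have i1 : Integrable (fun s : ℝ => ex (s * B) * (((s : ℂ) ^ 2 + ε ^ 2)⁻¹)) := by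
    refine hb.bdd_mul (c := 1) ?_ (Eventually.of_forall fun s => ?_)
    · exact (ex_cont.comp (by fun_prop)).aestronglyMeasurable
    · rw [norm_ex]
  have i0 : Integrable (fun s : ℝ => ex (s * 0) * (((s : ℂ) ^ 2 + ε ^ 2)⁻¹)) := by
    refine hb.congr (Eventually.of_forall fun s => ?_)
    simp [ex_zero]
  have key : ∫ s : ℝ, (1 - Real.cos (s * B)) / (s ^ 2 + ε ^ 2) =
      (∫ s : ℝ, (ex (s * 0) * (((s : ℂ) ^ 2 + ε ^ 2)⁻¹) -
        ex (s * B) * (((s : ℂ) ^ 2 + ε ^ 2)⁻¹))).re := by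
    have := integral_re (i0.sub i1) (𝕜 := ℂ)
    simp only [Pi.sub_apply] at this
    rw [show (∫ s : ℝ, (ex (s * 0) * (((s : ℂ) ^ 2 + ε ^ 2)⁻¹) -
        ex (s * B) * (((s : ℂ) ^ 2 + ε ^ 2)⁻¹))).re = RCLike.re (∫ s : ℝ, (ex (s * 0) * (((s : ℂ) ^ 2 + ε ^ 2)⁻¹) -
        ex (s * B) * (((s : ℂ) ^ 2 + ε ^ 2)⁻¹))) from rfl, ← this]
    refine integral_congr_ae (Eventually.of_forall fun s => ?_)
    simp only
    rw [← sub_mul]
    have e : (((s : ℂ) ^ 2 + ε ^ 2)⁻¹) = (((s ^ 2 + ε ^ 2)⁻¹ : ℝ) : ℂ) := by push_cast; rfl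
    rw [e]
    simp only [RCLike.re_to_complex, Complex.re_mul_ofReal, Complex.sub_re, ex_re, mul_zero,
      Real.cos_zero]
    rw [div_eq_mul_inv]
  rw [key, integral_sub i0 i1, h0, h1]
  rw [← Complex.ofReal_sub, Complex.ofReal_re]
  simp only [abs_zero, mul_zero, neg_zero, Real.exp_zero, mul_one, abs_of_nonneg hB]
  have h2 : 1 - ε * B ≤ Real.exp (-(ε * B)) := by
    have := Real.add_one_le_exp (-(ε * B))
    linarith
  have h3 : Real.pi / ε - Real.pi / ε * Real.exp (-(ε * B)) =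
      Real.pi / ε * (1 - Real.exp (-(ε * B))) := by ring
  rw [h3]
  have h4 : Real.pi / ε * (1 - Real.exp (-(ε * B))) ≤ Real.pi / ε * (ε * B) := by
    apply mul_le_mul_of_nonneg_left (by linarith)
    positivity
  refine h4.trans (le_of_eq ?_)
  field_simp

lemma int_one_sub_cos_le (B : ℝ) (hB : 0 ≤ B) :
    ∫ s : ℝ, (1 - Real.cos (s * B)) / s ^ 2 ≤ Real.pi * B := by
  have ht : Tendsto (fun n : ℕ => ∫ s : ℝ, (1 - Real.cos (s * B)) / (s ^ 2 + (1 / ((n : ℝ) + 1)) ^ 2))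
      atTop (𝓝 (∫ s : ℝ, (1 - Real.cos (s * B)) / s ^ 2)) := by
    refine tendsto_integral_of_dominated_convergence
      (fun s : ℝ => (1 - Real.cos (s * B)) / s ^ 2) (fun n => ?_) (int_one_sub_cos B)
      (fun n => Eventually.of_forall fun s => ?_) ?_
    · apply Measurable.aestronglyMeasurable
      fun_prop
    · have h1 := Real.cos_le_one (s * B)
      rw [Real.norm_eq_abs, abs_of_nonneg (div_nonneg (by linarith) (by positivity))]
      by_cases hs : s = 0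
      · subst hs; simp
      · apply div_le_div_of_nonneg_left (by linarith) (by positivity)
        have : 0 ≤ (1 / ((n : ℝ) + 1)) ^ 2 := by positivity
        linarith
    · have hne : ∀ᵐ s : ℝ, s ≠ 0 := by
        rw [ae_iff]
        simp
      filter_upwards [hne] with s hs
      have h0 : Tendsto (fun n : ℕ => s ^ 2 + (1 / ((n : ℝ) + 1)) ^ 2) atTop (𝓝 (s ^ 2 + 0 ^ 2)) :=
        tendsto_const_nhds.add (tendsto_one_div_add_atTop_nhds_zero_nat.pow 2)
      have e : s ^ 2 + (0 : ℝ) ^ 2 = s ^ 2 := by ring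
      rw [e] at h0
      exact tendsto_const_nhds.div h0 (by positivity)
  refine le_of_tendsto ht (Eventually.of_forall fun n => ?_)
  exact int_reg B hB _ (by positivity)

end Pool.Agent.H506R3.MagB
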