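import Mathlib
import Pool.Agent.H506R3.MagB.M1

set_option autoImplicit false

/-!
The trial function: weight of a segment for the kernel `e^{-λ|x|}`, and its Fourier transform.
-/

namespace Pool.Agent.H506R3.MagB

open MeasureTheory Set Filter Topology

noncomputable def mh (lam t s : ℝ) : ℂ :=
  (∫ y in (0 : ℝ)..t, ex (-(s * y))) + ((1 / lam : ℝ) : ℂ) * (1 + ex (-(s * t)))

noncomputable def Hh (lam t s : ℝ) : ℂ := mh lam t s * ((uu lam s : ℝ) : ℂ)

lemma exint_cont (t : ℝ) : Continuous (fun s : ℝ => ∫ y in (0 : ℝ)..t, ex (-(s * y))) := by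
  apply intervalIntegral.continuous_parametric_intervalIntegral_of_continuous'
  exact ex_cont.comp (by fun_prop)

lemma mh_cont (lam t : ℝ) : Continuous (mh lam t) := by
  unfold mh
  have h1 := exint_cont t
  have h2 : Continuous (fun s : ℝ => ex (-(s * t))) := ex_cont.comp (by fun_prop)
  fun_prop

lemma mh_bdd (lam t s : ℝ) (hl : 0 < lam) (ht : 0 ≤ t) : ‖mh lam t s‖ ≤ t + 2 / lam := by
  unfold mh
  refine (norm_add_le _ _).trans (add_le_add ?_ ?_)
  · have := intervalIntegral.norm_integral_le_of_norm_le_const (a := 0) (b := t) (C := 1)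
      (f := fun y => ex (-(s * y))) (fun y _ => (norm_ex _).le)
    simpa [abs_of_nonneg ht] using this
  · rw [norm_mul, Complex.norm_real, Real.norm_eq_abs, abs_of_pos (by positivity)]
    have : ‖1 + ex (-(s * t))‖ ≤ 2 := by
      refine (norm_add_le _ _).trans ?_
      rw [norm_one, norm_ex]
      norm_num
    calc 1 / lam * ‖1 + ex (-(s * t))‖ ≤ 1 / lam * 2 := by
          apply mul_le_mul_of_nonneg_left this (by positivity)
      _ = 2 / lam := by ring

lemma Hh_int (lam t : ℝ) (hl : 0 < lam) (ht : 0 ≤ t) : Integrable (Hh lam t) := by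
  unfold Hh
  exact (uu_int lam hl).ofReal.bdd_mul (c := t + 2 / lam) (mh_cont lam t).aestronglyMeasurable
    (Eventually.of_forall fun s => mh_bdd lam t s hl ht)

lemma exp_piece (lam x t : ℝ) (hx0 : 0 ≤ x) (hxt : x ≤ t) :
    ∫ y in Ioc (0 : ℝ) t, Real.pi * lam * Real.exp (-(lam * |x - y|)) =
      Real.pi * (2 - Real.exp (-(lam * x)) - Real.exp (-(lam * (t - x)))) := by
  rw [← intervalIntegral.integral_of_le (hx0.trans hxt)]
  have hc : Continuous (fun y : ℝ => Real.pi * lam * Real.exp (-(lam * |x - y|))) := by fun_prop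
  rw [← intervalIntegral.integral_add_adjacent_intervals (hc.intervalIntegrable 0 x)
    (hc.intervalIntegrable x t)]
  have h1 : ∫ y in (0 : ℝ)..x, Real.pi * lam * Real.exp (-(lam * |x - y|)) =
      Real.pi * (1 - Real.exp (-(lam * x))) := by
    have e : ∫ y in (0 : ℝ)..x, Real.pi * lam * Real.exp (-(lam * |x - y|)) =
        ∫ y in (0 : ℝ)..x, Real.pi * lam * Real.exp (-(lam * (x - y))) := by
      apply intervalIntegral.integral_congr
      intro y hy
      rw [uIcc_of_le hx0] at hy
      simp only
      rw [abs_of_nonneg (by linarith [hy.2])]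
    rw [e]
    have hd : ∀ y ∈ uIcc 0 x, HasDerivAt (fun y : ℝ => Real.pi * Real.exp (-(lam * (x - y))))
        (Real.pi * lam * Real.exp (-(lam * (x - y)))) y := by
      intro y _
      have h0 : HasDerivAt (fun y : ℝ => -(lam * (x - y))) lam y := by
        have := ((hasDerivAt_id' y).const_sub x).const_mul (-lam)
        simp only [neg_mul, mul_neg, mul_one, neg_neg] at this
        exact this
      have := (h0.exp).const_mul Real.pi
      refine this.congr_deriv ?_
      ring
    rw [intervalIntegral.integral_eq_sub_of_hasDerivAt hd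
      ((by fun_prop : Continuous (fun y : ℝ => Real.pi * lam * Real.exp (-(lam * (x - y))))).intervalIntegrable _ _)]
    simp
    ring
  have h2 : ∫ y in x..t, Real.pi * lam * Real.exp (-(lam * |x - y|)) =
      Real.pi * (1 - Real.exp (-(lam * (t - x)))) := by
    have e : ∫ y in x..t, Real.pi * lam * Real.exp (-(lam * |x - y|)) =
        ∫ y in x..t, Real.pi * lam * Real.exp (-(lam * (y - x))) := by
      apply intervalIntegral.integral_congr
      intro y hy
      rw [uIcc_of_le hxt] at hy
      simp only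
      rw [abs_sub_comm, abs_of_nonneg (by linarith [hy.1])]
    rw [e]
    have hd : ∀ y ∈ uIcc x t, HasDerivAt (fun y : ℝ => -(Real.pi * Real.exp (-(lam * (y - x)))))
        (Real.pi * lam * Real.exp (-(lam * (y - x)))) y := by
      intro y _
      have h0 : HasDerivAt (fun y : ℝ => -(lam * (y - x))) (-lam) y := by
        have := ((hasDerivAt_id' y).sub_const x).const_mul (-lam)
        simp only [neg_mul, mul_one] at this
        exact this
      have := (h0.exp).const_mul (-Real.pi)
      simp only [neg_mul] at this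
      refine this.congr_deriv ?_
      ring
    rw [intervalIntegral.integral_eq_sub_of_hasDerivAt hd
      ((by fun_prop : Continuous (fun y : ℝ => Real.pi * lam * Real.exp (-(lam * (y - x))))).intervalIntegrable _ _)]
    simp
    ring
  rw [h1, h2]
  ring

/-- the trial function equals one on the segment -/
lemma Hh_one (lam t x : ℝ) (hl : 0 < lam) (hx0 : 0 ≤ x) (hxt : x ≤ t) :
    ∫ s : ℝ, Hh lam t s * ex (s * x) = 2 * Real.pi := by
  have ht : 0 ≤ t := hx0.trans hxt
  have e1 : ∀ s : ℝ, Hh lam t s * ex (s * x) =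
      (∫ y in Ioc (0 : ℝ) t, ex (s * (x - y)) * ((uu lam s : ℝ) : ℂ)) +
      ((1 / lam : ℝ) : ℂ) * (ex (s * x) * ((uu lam s : ℝ) : ℂ) +
        ex (s * (x - t)) * ((uu lam s : ℝ) : ℂ)) := by
    intro s
    unfold Hh mh
    rw [intervalIntegral.integral_of_le ht, add_mul, add_mul]
    congr 1
    · rw [integral_mul_const, mul_assoc, mul_comm _ (ex (s * x)), ← mul_assoc,
        ← integral_mul_const]
      congr 1
      refine integral_congr_ae (Eventually.of_forall fun y => ?_)
      simp only
      rw [← ex_add]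
      congr 1
      ring
    · have : ex (s * (x - t)) = ex (-(s * t)) * ex (s * x) := by
        rw [← ex_add]; congr 1; ring
      rw [this]
      ring
  simp_rw [e1]
  have iu : Integrable (fun s : ℝ => ((uu lam s : ℝ) : ℂ)) := (uu_int lam hl).ofReal
  have ib : ∀ z : ℝ, Integrable (fun s : ℝ => ex (s * z) * ((uu lam s : ℝ) : ℂ)) := by
    intro z
    exact iu.bdd_mul (c := 1) (ex_cont.comp (by fun_prop)).aestronglyMeasurable
      (Eventually.of_forall fun s => (norm_ex _).le)
  have hprod : Integrable (Function.uncurry (fun s y : ℝ => ex (s * (x - y)) *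
      ((uu lam s : ℝ) : ℂ))) (volume.prod (volume.restrict (Ioc (0 : ℝ) t))) := by
    have h0 : Integrable (fun p : ℝ × ℝ => ((uu lam p.1 : ℝ) : ℂ) * (1 : ℂ))
        (volume.prod (volume.restrict (Ioc (0 : ℝ) t))) :=
      iu.mul_prod (integrable_const (1 : ℂ))
    have h1 : Integrable (fun p : ℝ × ℝ => ((uu lam p.1 : ℝ) : ℂ))
        (volume.prod (volume.restrict (Ioc (0 : ℝ) t))) := by
      refine h0.congr (Eventually.of_forall fun p => ?_)
      simp
    refine h1.bdd_mul (c := 1) (f := fun p : ℝ × ℝ => ex (p.1 * (x - p.2))) ?_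
      (Eventually.of_forall fun s => (norm_ex _).le)
    exact (ex_cont.comp (by fun_prop)).aestronglyMeasurable
  have i1 : Integrable (fun s : ℝ => ∫ y in Ioc (0 : ℝ) t, ex (s * (x - y)) *
      ((uu lam s : ℝ) : ℂ)) := hprod.integral_prod_left
  have i2 : Integrable (fun s : ℝ => ((1 / lam : ℝ) : ℂ) * (ex (s * x) * ((uu lam s : ℝ) : ℂ) +
        ex (s * (x - t)) * ((uu lam s : ℝ) : ℂ))) := ((ib x).add (ib (x - t))).const_mul _
  rw [integral_add i1 i2, integral_const_mul, integral_add (ib x) (ib (x - t))]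
  rw [integral_integral_swap hprod]
  simp_rw [uu_ft lam hl]
  rw [integral_complex_ofReal, exp_piece lam x t hx0 hxt, abs_of_nonneg hx0, abs_sub_comm,
    abs_of_nonneg (by linarith : 0 ≤ t - x)]
  have hl' : (lam : ℂ) ≠ 0 := by exact_mod_cast hl.ne'
  push_cast
  field_simp
  ring

/-- closed form away from zero -/
lemma Hh_closed (lam t s : ℝ) (hl : 0 < lam) (hs : s ≠ 0) :
    Hh lam t s * ((s : ℂ) * Complex.I) =
      1 / (1 - (s : ℂ) * Complex.I / lam) - ex (-(s * t)) / (1 + (s : ℂ) * Complex.I / lam) := by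
  have hsI : (s : ℂ) * Complex.I ≠ 0 := by
    simp [hs, Complex.I_ne_zero]
  have hl' : (lam : ℂ) ≠ 0 := by exact_mod_cast hl.ne'
  have h1 : (1 : ℂ) - (s : ℂ) * Complex.I / lam ≠ 0 := by
    intro h
    have := congrArg Complex.re h
    simp [Complex.div_re] at this
  have h2 : (1 : ℂ) + (s : ℂ) * Complex.I / lam ≠ 0 := by
    intro h
    have := congrArg Complex.re h
    simp [Complex.div_re] at this
  have e1 : ∫ y in (0 : ℝ)..t, ex (-(s * y)) = (1 - ex (-(s * t))) / ((s : ℂ) * Complex.I) := by
    have hc : -((s : ℂ) * Complex.I) ≠ 0 := neg_ne_zero.2 hsI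
    have := integral_exp_mul_complex (a := 0) (b := t) hc
    have e2 : ∀ y : ℝ, ex (-(s * y)) = Complex.exp (-((s : ℂ) * Complex.I) * y) := by
      intro y
      unfold ex
      congr 1
      push_cast
      ring
    simp_rw [e2]
    rw [this]
    simp only [Complex.ofReal_zero, mul_zero, Complex.exp_zero]
    rw [div_neg, ← neg_div, neg_sub]
  have e3 : ((uu lam s : ℝ) : ℂ) = 1 / ((1 - (s : ℂ) * Complex.I / lam) *
      (1 + (s : ℂ) * Complex.I / lam)) := by
    have : (1 - (s : ℂ) * Complex.I / lam) * (1 + (s : ℂ) * Complex.I / lam) =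
        1 + (s : ℂ) ^ 2 / lam ^ 2 := by
      have : (1 - (s : ℂ) * Complex.I / lam) * (1 + (s : ℂ) * Complex.I / lam) =
        1 - (s : ℂ) ^ 2 * Complex.I ^ 2 / lam ^ 2 := by ring
      rw [this, Complex.I_sq]
      ring
    rw [this]
    unfold uu
    push_cast
    rw [one_div]
  unfold Hh mh
  rw [e1, e3]
  generalize ex (-(s * t)) = E
  generalize (s : ℂ) * Complex.I = z at hsI h1 h2
  have h3 : (lam : ℂ) - z ≠ 0 := by
    intro h
    apply h1
    have : z = lam := by linear_combination -h
    rw [this, div_self hl', sub_self]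
  have h4 : (lam : ℂ) + z ≠ 0 := by
    intro h
    apply h2
    have : z = -lam := by linear_combination h
    rw [this, neg_div, div_self hl']
    ring
  have e6 : (1 : ℂ) - z / lam = (lam - z) / lam := by field_simp
  have e7 : (1 : ℂ) + z / lam = (lam + z) / lam := by field_simp
  rw [e6, e7]
  push_cast
  field_simp
  ring

end Pool.Agent.H506R3.MagB
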