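import Mathlib
import Pool.Agent.H506R3.MagB.M2

set_option autoImplicit false

/-!
The rational trial function and its energy.
-/

namespace Pool.Agent.H506R3.MagB

open MeasureTheory Set Filter Topology

/-- `1 + i c s` -/
noncomputable def gg (c s : ℝ) : ℂ := 1 + ((c * s : ℝ) : ℂ) * Complex.I

/-- `1 - i c s` -/
noncomputable def gc (c s : ℝ) : ℂ := 1 - ((c * s : ℝ) : ℂ) * Complex.I

lemma gc_conj (c s : ℝ) : gc c s = (starRingEnd ℂ) (gg c s) := by
  unfold gc gg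
  simp [sub_eq_add_neg]

lemma gg_sq (c s : ℝ) : ‖gg c s‖ ^ 2 = 1 + c ^ 2 * s ^ 2 := by
  rw [Complex.sq_norm, Complex.normSq_apply]
  unfold gg
  simp
  ring

lemma gg_norm_ge (c s : ℝ) : 1 ≤ ‖gg c s‖ := by
  have h := gg_sq c s
  have h1 : 0 ≤ c ^ 2 * s ^ 2 := by positivity
  nlinarith [norm_nonneg (gg c s)]

lemma gg_ne (c s : ℝ) : gg c s ≠ 0 := by
  intro h
  have := gg_norm_ge c s
  rw [h, norm_zero] at this
  linarith

lemma gc_norm (c s : ℝ) : ‖gc c s‖ = ‖gg c s‖ := by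
  rw [gc_conj, RCLike.norm_conj]

lemma gc_ne (c s : ℝ) : gc c s ≠ 0 := by
  rw [← norm_ne_zero_iff, gc_norm, norm_ne_zero_iff]
  exact gg_ne c s

lemma gg_cont (c : ℝ) : Continuous (gg c) := by unfold gg; fun_prop

lemma gc_cont (c : ℝ) : Continuous (gc c) := by unfold gc; fun_prop

/-- outer factor -/
noncomputable def Aa (s : ℝ) : ℂ := gg 1 s * gg (4/5) s * gg (1/6) s / gg (2/5) s

noncomputable def Ac (s : ℝ) : ℂ := gc 1 s * gc (4/5) s * gc (1/6) s / gc (2/5) s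

/-- the weight -/
noncomputable def Pp (s : ℝ) : ℝ :=
  (1 + s ^ 2) * (1 + 16 / 25 * s ^ 2) * (1 + 1 / 36 * s ^ 2) / (1 + 4 / 25 * s ^ 2)

lemma Aa_sq (s : ℝ) : ‖Aa s‖ ^ 2 = Pp s := by
  unfold Aa Pp
  rw [norm_div, norm_mul, norm_mul, div_pow, mul_pow, mul_pow, gg_sq, gg_sq, gg_sq, gg_sq]
  norm_num

lemma Aa_ne (s : ℝ) : Aa s ≠ 0 := by
  unfold Aa
  exact div_ne_zero (mul_ne_zero (mul_ne_zero (gg_ne _ _) (gg_ne _ _)) (gg_ne _ _)) (gg_ne _ _)

lemma Ac_norm (s : ℝ) : ‖Ac s‖ = ‖Aa s‖ := by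
  unfold Aa Ac
  simp only [norm_div, norm_mul, gc_norm]

lemma Ac_ne (s : ℝ) : Ac s ≠ 0 := by
  rw [← norm_ne_zero_iff, Ac_norm, norm_ne_zero_iff]
  exact Aa_ne s

lemma Pp_pos (s : ℝ) : 0 < Pp s := by unfold Pp; positivity

lemma Pp_cont : Continuous Pp := by
  unfold Pp
  refine Continuous.div (by fun_prop) (by fun_prop) (fun s => ?_)
  positivity

lemma Pp_ge (s : ℝ) : (1 + s ^ 2) * Real.sqrt (1 + s ^ 2) ≤ Pp s := by
  unfold Pp
  set y := s ^ 2 with hy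
  have hy0 : 0 ≤ y := by positivity
  have h1 : Real.sqrt (1 + y) ≤ (1 + 16 / 25 * y) * (1 + 1 / 36 * y) / (1 + 4 / 25 * y) := by
    apply Real.sqrt_le_iff.2
    refine ⟨by positivity, ?_⟩
    rw [div_pow, le_div_iff₀ (by positivity)]
    have h2 : ((1 + 16 / 25 * y) * (1 + 1 / 36 * y)) ^ 2 - (1 + y) * (1 + 4 / 25 * y) ^ 2 =
        y * (7 / 450 + y * (22013 / 162000 - 94 / 50625 * y + 16 / 50625 * y ^ 2)) := by
      ring
    have h3 : 0 ≤ 22013 / 162000 - 94 / 50625 * y + 16 / 50625 * y ^ 2 := by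
      nlinarith [sq_nonneg (y - 3)]
    have h4 : 0 ≤ y * (7 / 450 + y * (22013 / 162000 - 94 / 50625 * y + 16 / 50625 * y ^ 2)) := by
      positivity
    linarith
  calc (1 + y) * Real.sqrt (1 + y) ≤
      (1 + y) * ((1 + 16 / 25 * y) * (1 + 1 / 36 * y) / (1 + 4 / 25 * y)) := by
        apply mul_le_mul_of_nonneg_left h1 (by positivity)
    _ = _ := by ring

/-- the transform of the trial function -/
noncomputable def HH (t s : ℝ) : ℂ :=
  18 / 5 * Hh 1 t s - 48 / 19 * Hh (5 / 4) t s - 7 / 95 * Hh 6 t s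

lemma HH_int (t : ℝ) (ht : 0 ≤ t) : Integrable (HH t) := by
  unfold HH
  exact (((Hh_int 1 t (by norm_num) ht).const_mul _).sub
    ((Hh_int (5 / 4) t (by norm_num) ht).const_mul _)).sub
    ((Hh_int 6 t (by norm_num) ht).const_mul _)

lemma Hh_cont (lam t : ℝ) : Continuous (Hh lam t) := by
  unfold Hh
  have h1 := mh_cont lam t
  have h2 := uu_cont lam
  fun_prop

lemma HH_cont (t : ℝ) : Continuous (HH t) := by
  unfold HH
  have h1 := Hh_cont 1 t
  have h2 := Hh_cont (5 / 4) t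
  have h3 := Hh_cont 6 t
  fun_prop

lemma HH_one (t x : ℝ) (hx0 : 0 ≤ x) (hxt : x ≤ t) :
    ∫ s : ℝ, HH t s * ex (s * x) = 2 * Real.pi := by
  have ht : 0 ≤ t := hx0.trans hxt
  have hi : ∀ lam : ℝ, 0 < lam → Integrable (fun s : ℝ => Hh lam t s * ex (s * x)) := by
    intro lam hl
    exact (Hh_int lam t hl ht).mul_bdd (c := 1) (ex_cont.comp (by fun_prop)).aestronglyMeasurable
      (Eventually.of_forall fun s => (norm_ex _).le)
  have e : ∀ s : ℝ, HH t s * ex (s * x) = 18 / 5 * (Hh 1 t s * ex (s * x)) -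
      48 / 19 * (Hh (5 / 4) t s * ex (s * x)) - 7 / 95 * (Hh 6 t s * ex (s * x)) := by
    intro s; unfold HH; ring
  simp_rw [e]
  have i1 : Integrable (fun s : ℝ => (18 / 5 : ℂ) * (Hh 1 t s * ex (s * x))) :=
    (hi 1 (by norm_num)).const_mul _
  have i2 : Integrable (fun s : ℝ => (48 / 19 : ℂ) * (Hh (5 / 4) t s * ex (s * x))) :=
    (hi (5 / 4) (by norm_num)).const_mul _
  have i3 : Integrable (fun s : ℝ => (7 / 95 : ℂ) * (Hh 6 t s * ex (s * x))) :=
    (hi 6 (by norm_num)).const_mul _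
  have i12 : Integrable (fun s : ℝ => (18 / 5 : ℂ) * (Hh 1 t s * ex (s * x)) -
      (48 / 19 : ℂ) * (Hh (5 / 4) t s * ex (s * x))) := i1.sub i2
  rw [integral_sub i12 i3, integral_sub i1 i2, integral_const_mul, integral_const_mul,
    integral_const_mul, Hh_one 1 t x (by norm_num) hx0 hxt,
    Hh_one (5 / 4) t x (by norm_num) hx0 hxt, Hh_one 6 t x (by norm_num) hx0 hxt]
  ring

lemma HH_closed (t s : ℝ) (hs : s ≠ 0) :
    HH t s * ((s : ℂ) * Complex.I) = 1 / Ac s - ex (-(s * t)) / Aa s := by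
  have h1 := Hh_closed 1 t s (by norm_num) hs
  have h2 := Hh_closed (5 / 4) t s (by norm_num) hs
  have h3 := Hh_closed 6 t s (by norm_num) hs
  have a1 := gg_ne 1 s
  have a2 := gg_ne (4 / 5) s
  have a3 := gg_ne (1 / 6) s
  have a4 := gg_ne (2 / 5) s
  have b1 := gc_ne 1 s
  have b2 := gc_ne (4 / 5) s
  have b3 := gc_ne (1 / 6) s
  have b4 := gc_ne (2 / 5) s
  unfold HH Aa Ac
  rw [sub_mul, sub_mul, mul_assoc, mul_assoc, mul_assoc, h1, h2, h3]
  unfold gg at a1 a2 a3 a4 ⊢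
  unfold gc at b1 b2 b3 b4 ⊢
  generalize ex (-(s * t)) = E
  push_cast at a1 a2 a3 a4 b1 b2 b3 b4 ⊢
  generalize hz : (s : ℂ) * Complex.I = z
  have e1 : (1 : ℂ) * (s : ℂ) * Complex.I = z := by rw [← hz]; ring
  have e2 : (4 / 5 : ℂ) * (s : ℂ) * Complex.I = 4 / 5 * z := by rw [← hz]; ring
  have e3 : (1 / 6 : ℂ) * (s : ℂ) * Complex.I = 1 / 6 * z := by rw [← hz]; ring
  have e4 : (2 / 5 : ℂ) * (s : ℂ) * Complex.I = 2 / 5 * z := by rw [← hz]; ring
  rw [e1] at a1 b1 ⊢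
  rw [e2] at a2 b2 ⊢
  rw [e3] at a3 b3 ⊢
  rw [e4] at a4 b4 ⊢
  have d2 : z / (5 / 4) = 4 / 5 * z := by ring
  have d3 : z / 6 = 1 / 6 * z := by ring
  rw [d2, d3, div_one]
  have k1 : (18 / 5 : ℂ) * (1 / (1 + z)) - 48 / 19 * (1 / (1 + 4 / 5 * z)) -
      7 / 95 * (1 / (1 + 1 / 6 * z)) =
      (1 + 2 / 5 * z) / ((1 + z) * (1 + 4 / 5 * z) * (1 + 1 / 6 * z)) := by
    rw [eq_div_iff (mul_ne_zero (mul_ne_zero a1 a2) a3)]
    have c1 : (1 / (1 + z)) * (1 + z) = 1 := by field_simp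
    have c2 : (1 / (1 + 4 / 5 * z)) * (1 + 4 / 5 * z) = 1 := div_mul_cancel₀ _ a2
    have c3 : (1 / (1 + 1 / 6 * z)) * (1 + 1 / 6 * z) = 1 := div_mul_cancel₀ _ a3
    generalize 1 / (1 + z) = p at c1
    generalize 1 / (1 + 4 / 5 * z) = q at c2
    generalize 1 / (1 + 1 / 6 * z) = r at c3
    linear_combination (18 / 5 * (1 + 4 / 5 * z) * (1 + 1 / 6 * z)) * c1 -
      (48 / 19 * (1 + z) * (1 + 1 / 6 * z)) * c2 - (7 / 95 * (1 + z) * (1 + 4 / 5 * z)) * c3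
  have k2 : (18 / 5 : ℂ) * (1 / (1 - z)) - 48 / 19 * (1 / (1 - 4 / 5 * z)) -
      7 / 95 * (1 / (1 - 1 / 6 * z)) =
      (1 - 2 / 5 * z) / ((1 - z) * (1 - 4 / 5 * z) * (1 - 1 / 6 * z)) := by
    rw [eq_div_iff (mul_ne_zero (mul_ne_zero b1 b2) b3)]
    have c1 : (1 / (1 - z)) * (1 - z) = 1 := div_mul_cancel₀ _ b1
    have c2 : (1 / (1 - 4 / 5 * z)) * (1 - 4 / 5 * z) = 1 := div_mul_cancel₀ _ b2
    have c3 : (1 / (1 - 1 / 6 * z)) * (1 - 1 / 6 * z) = 1 := div_mul_cancel₀ _ b3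
    generalize 1 / (1 - z) = p at c1
    generalize 1 / (1 - 4 / 5 * z) = q at c2
    generalize 1 / (1 - 1 / 6 * z) = r at c3
    linear_combination (18 / 5 * (1 - 4 / 5 * z) * (1 - 1 / 6 * z)) * c1 -
      (48 / 19 * (1 - z) * (1 - 1 / 6 * z)) * c2 - (7 / 95 * (1 - z) * (1 - 4 / 5 * z)) * c3
  have k3 : 1 / ((1 - z) * (1 - 4 / 5 * z) * (1 - 1 / 6 * z) / (1 - 2 / 5 * z)) =
      (1 - 2 / 5 * z) / ((1 - z) * (1 - 4 / 5 * z) * (1 - 1 / 6 * z)) := one_div_div _ _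
  have k4 : E / ((1 + z) * (1 + 4 / 5 * z) * (1 + 1 / 6 * z) / (1 + 2 / 5 * z)) =
      E * ((1 + 2 / 5 * z) / ((1 + z) * (1 + 4 / 5 * z) * (1 + 1 / 6 * z))) := by
    rw [div_div_eq_mul_div, mul_div_assoc]
  rw [k3, k4, ← k1, ← k2]
  ring

lemma exp_second (u : ℝ) : ‖ex u - (1 + (u : ℂ) * Complex.I)‖ ≤ 3 * u ^ 2 := by
  by_cases h : |u| ≤ 1
  · have h1 : ‖(u : ℂ) * Complex.I‖ ≤ 1 := by simpa using h
    have h2 := Complex.norm_exp_sub_one_sub_id_le h1
    have e : ‖(u : ℂ) * Complex.I‖ ^ 2 = u ^ 2 := by simp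
    rw [e] at h2
    have e2 : ex u - (1 + (u : ℂ) * Complex.I) =
        Complex.exp ((u : ℂ) * Complex.I) - 1 - (u : ℂ) * Complex.I := by
      unfold ex; ring
    rw [e2]
    nlinarith [sq_nonneg u]
  · rw [not_le] at h
    have h1 : ‖ex u - (1 + (u : ℂ) * Complex.I)‖ ≤ 1 + (1 + |u|) := by
      refine (norm_sub_le _ _).trans (add_le_add (norm_ex u).le ?_)
      refine (norm_add_le _ _).trans ?_
      simp
    have h2 : u ^ 2 = |u| ^ 2 := (sq_abs u).symm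
    rw [h2]
    nlinarith

/-- normalised unimodular factor -/
noncomputable def vv (c s : ℝ) : ℂ := ex (-(2 * (c * s))) * gg c s / gc c s

lemma vv_norm (c s : ℝ) : ‖vv c s‖ = 1 := by
  unfold vv
  rw [norm_div, norm_mul, norm_ex, gc_norm, one_mul, div_self]
  exact norm_ne_zero_iff.2 (gg_ne c s)

lemma vv_near (c s : ℝ) : ‖vv c s - 1‖ ≤ 6 * (c ^ 2 * s ^ 2) := by
  have h1 := exp_second (c * s)
  have h2 := exp_second (-(c * s))
  have e : vv c s - 1 = (ex (-(2 * (c * s))) * (gg c s - ex (c * s)) -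
      (gc c s - ex (-(c * s)))) / gc c s := by
    unfold vv
    have : ex (-(2 * (c * s))) * ex (c * s) = ex (-(c * s)) := by
      rw [← ex_add]; congr 1; ring
    rw [mul_sub, this, eq_div_iff (gc_ne c s), sub_mul, div_mul_cancel₀ _ (gc_ne c s)]
    ring
  rw [e, norm_div, gc_norm, div_le_iff₀ (lt_of_lt_of_le one_pos (gg_norm_ge c s))]
  have h3 : ‖ex (-(2 * (c * s))) * (gg c s - ex (c * s)) - (gc c s - ex (-(c * s)))‖ ≤
      3 * (c * s) ^ 2 + 3 * (c * s) ^ 2 := by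
    refine (norm_sub_le _ _).trans (add_le_add ?_ ?_)
    · rw [norm_mul, norm_ex, one_mul, norm_sub_rev]
      exact h1
    · rw [norm_sub_rev]
      have : gc c s = 1 + ((-(c * s) : ℝ) : ℂ) * Complex.I := by unfold gc; push_cast; ring
      rw [this]
      refine h2.trans (le_of_eq ?_)
      ring
  have h4 : 0 ≤ c ^ 2 * s ^ 2 := by positivity
  have h5 := gg_norm_ge c s
  nlinarith

/-- the remaining unimodular factor -/
noncomputable def VV (s : ℝ) : ℂ := ex (-(s * (47 / 15))) * (Aa s / Ac s)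

lemma VV_norm (s : ℝ) : ‖VV s‖ = 1 := by
  unfold VV
  rw [norm_mul, norm_ex, norm_div, Ac_norm, one_mul, div_self]
  exact norm_ne_zero_iff.2 (Aa_ne s)

lemma VV_eq (s : ℝ) : VV s * vv (2 / 5) s = vv 1 s * vv (4 / 5) s * vv (1 / 6) s := by
  have e1 : ex (-(s * (47 / 15))) * ex (-(2 * (2 / 5 * s))) =
      ex (-(2 * (1 * s))) * ex (-(2 * (4 / 5 * s))) * ex (-(2 * (1 / 6 * s))) := by
    rw [← ex_add, ← ex_add, ← ex_add]
    congr 1
    ring
  have a4 := gg_ne (2 / 5) s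
  have b1 := gc_ne 1 s
  have b2 := gc_ne (4 / 5) s
  have b3 := gc_ne (1 / 6) s
  have b4 := gc_ne (2 / 5) s
  unfold VV vv Aa Ac
  have e2 : ex (-(s * (47 / 15))) * (gg 1 s * gg (4 / 5) s * gg (1 / 6) s / gg (2 / 5) s /
      (gc 1 s * gc (4 / 5) s * gc (1 / 6) s / gc (2 / 5) s)) *
      (ex (-(2 * (2 / 5 * s))) * gg (2 / 5) s / gc (2 / 5) s) =
      (ex (-(s * (47 / 15))) * ex (-(2 * (2 / 5 * s)))) *
      (gg 1 s * gg (4 / 5) s * gg (1 / 6) s / (gc 1 s * gc (4 / 5) s * gc (1 / 6) s)) := by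
    field_simp
  rw [e2, e1]
  field_simp

lemma VV_near (s : ℝ) : ‖VV s - 1‖ ≤ 12 * s ^ 2 := by
  have n1 := vv_norm 1 s
  have n2 := vv_norm (4 / 5) s
  have n3 := vv_norm (1 / 6) s
  have n4 := vv_norm (2 / 5) s
  have h1 := vv_near 1 s
  have h2 := vv_near (4 / 5) s
  have h3 := vv_near (1 / 6) s
  have h4 := vv_near (2 / 5) s
  have e1 : ‖VV s - 1‖ = ‖vv 1 s * vv (4 / 5) s * vv (1 / 6) s - vv (2 / 5) s‖ := by
    rw [← VV_eq, ← sub_one_mul, norm_mul, n4, mul_one]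
  rw [e1]
  have e2 : vv 1 s * vv (4 / 5) s * vv (1 / 6) s - vv (2 / 5) s =
      (vv 1 s - 1) * (vv (4 / 5) s * vv (1 / 6) s) + (vv (4 / 5) s - 1) * vv (1 / 6) s +
      (vv (1 / 6) s - 1) - (vv (2 / 5) s - 1) := by ring
  rw [e2]
  have h5 : ‖(vv 1 s - 1) * (vv (4 / 5) s * vv (1 / 6) s) + (vv (4 / 5) s - 1) * vv (1 / 6) s +
      (vv (1 / 6) s - 1) - (vv (2 / 5) s - 1)‖ ≤
      ‖vv 1 s - 1‖ + ‖vv (4 / 5) s - 1‖ + ‖vv (1 / 6) s - 1‖ + ‖vv (2 / 5) s - 1‖ := by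
    refine (norm_sub_le _ _).trans (add_le_add ?_ le_rfl)
    refine (norm_add_le _ _).trans (add_le_add ?_ le_rfl)
    refine (norm_add_le _ _).trans (add_le_add ?_ ?_)
    · rw [norm_mul, norm_mul, n2, n3]; simp
    · rw [norm_mul, n3]; simp
  have h6 : 0 ≤ s ^ 2 := by positivity
  nlinarith

lemma Aa_cont : Continuous Aa := by
  unfold Aa
  exact (((gg_cont _).mul (gg_cont _)).mul (gg_cont _)).div (gg_cont _) (fun s => gg_ne _ s)

lemma Ac_cont : Continuous Ac := by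
  unfold Ac
  exact (((gc_cont _).mul (gc_cont _)).mul (gc_cont _)).div (gc_cont _) (fun s => gc_ne _ s)

lemma VV_cont : Continuous VV := by
  unfold VV
  exact (ex_cont.comp (by fun_prop)).mul (Aa_cont.div Ac_cont (fun s => Ac_ne s))

noncomputable def GG (s : ℝ) : ℂ := (1 - VV s) / ((s ^ 2 : ℝ) : ℂ)

lemma GG_bound (s : ℝ) : ‖GG s‖ ≤ 14 * (1 + s ^ 2)⁻¹ := by
  unfold GG
  by_cases hs : s = 0
  · subst hs; simp
  have hs2 : 0 < s ^ 2 := by positivity
  rw [norm_div, Complex.norm_real, Real.norm_eq_abs, abs_of_pos hs2, div_le_iff₀ hs2, mul_assoc,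
    ← div_eq_inv_mul, ← mul_div_assoc, le_div_iff₀ (by positivity)]
  have h1 := VV_near s
  have h2 : ‖1 - VV s‖ ≤ 2 := by
    refine (norm_sub_le _ _).trans ?_
    rw [norm_one, VV_norm]
    norm_num
  rw [norm_sub_rev] at h1
  nlinarith

lemma GG_int : Integrable GG := by
  refine Integrable.mono' (integrable_inv_one_add_sq.const_mul 14) ?_
    (Eventually.of_forall fun s => GG_bound s)
  apply Measurable.aestronglyMeasurable
  unfold GG
  have := VV_cont.measurable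
  fun_prop

/-- pointwise energy identity -/
lemma energy_pt (t s : ℝ) (hs : s ≠ 0) : ‖HH t s‖ ^ 2 * Pp s =
    2 * ((1 - Real.cos (s * (t + 47 / 15))) / s ^ 2) + 2 * (ex (s * (t + 47 / 15)) * GG s).re := by
  have hc := HH_closed t s hs
  have hA := Aa_ne s
  have hAc := Ac_ne s
  have h1 : HH t s * ((s : ℂ) * Complex.I) * Aa s * ex (s * t) =
      ex (s * (t + 47 / 15)) * VV s - 1 := by
    rw [hc]
    have e1 : (1 / Ac s - ex (-(s * t)) / Aa s) * Aa s * ex (s * t) =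
        ex (s * t) * (Aa s / Ac s) - ex (s * t) * ex (-(s * t)) := by
      field_simp
    rw [e1, ex_mul_neg]
    unfold VV
    rw [← mul_assoc, ← ex_add]
    congr 3
    ring
  have h2 : ‖HH t s‖ * |s| * ‖Aa s‖ = ‖ex (s * (t + 47 / 15)) * VV s - 1‖ := by
    rw [← h1]
    simp [norm_ex]
  have h3 : ‖ex (s * (t + 47 / 15)) * VV s - 1‖ ^ 2 =
      2 - 2 * (ex (s * (t + 47 / 15)) * VV s).re := by
    have hn : ‖ex (s * (t + 47 / 15)) * VV s‖ = 1 := by
      rw [norm_mul, norm_ex, VV_norm, one_mul]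
    have hn2 : (ex (s * (t + 47 / 15)) * VV s).re ^ 2 + (ex (s * (t + 47 / 15)) * VV s).im ^ 2 = 1 := by
      have := Complex.sq_norm (ex (s * (t + 47 / 15)) * VV s)
      rw [hn, Complex.normSq_apply] at this
      nlinarith
    rw [Complex.sq_norm, Complex.normSq_apply]
    simp only [Complex.sub_re, Complex.one_re, Complex.sub_im, Complex.one_im]
    nlinarith
  have hs2 : s ^ 2 ≠ 0 := pow_ne_zero 2 hs
  have h4 : ‖HH t s‖ ^ 2 * Pp s = (2 - 2 * (ex (s * (t + 47 / 15)) * VV s).re) / s ^ 2 := by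
    rw [eq_div_iff hs2, ← h3, ← h2, ← Aa_sq, mul_pow, mul_pow, sq_abs]
    ring
  have h5 : (ex (s * (t + 47 / 15)) * GG s).re =
      (Real.cos (s * (t + 47 / 15)) - (ex (s * (t + 47 / 15)) * VV s).re) / s ^ 2 := by
    have : ex (s * (t + 47 / 15)) * GG s = (ex (s * (t + 47 / 15)) -
        ex (s * (t + 47 / 15)) * VV s) / ((s ^ 2 : ℝ) : ℂ) := by
      unfold GG; ring
    rw [this, Complex.div_ofReal_re, Complex.sub_re, ex_re]
  rw [h4, h5]
  field_simp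
  ring

noncomputable def EE (t : ℝ) : ℝ := ∫ s : ℝ, ‖HH t s‖ ^ 2 * Pp s

lemma ae_ne : ∀ᵐ s : ℝ, s ≠ 0 := by
  rw [ae_iff]
  simp

lemma int_ex_GG (B : ℝ) : Integrable (fun s : ℝ => ex (s * B) * GG s) :=
  GG_int.bdd_mul (c := 1) (ex_cont.comp (by fun_prop)).aestronglyMeasurable
    (Eventually.of_forall fun s => (norm_ex _).le)

lemma EE_integrable (t : ℝ) : Integrable (fun s : ℝ => ‖HH t s‖ ^ 2 * Pp s) := by
  have h1 : Integrable (fun s : ℝ => 2 * ((1 - Real.cos (s * (t + 47 / 15))) / s ^ 2) +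
      2 * (ex (s * (t + 47 / 15)) * GG s).re) :=
    ((int_one_sub_cos _).const_mul 2).add ((int_ex_GG _).re.const_mul 2)
  refine h1.congr ?_
  filter_upwards [ae_ne] with s hs
  exact (energy_pt t s hs).symm

lemma EE_le (t : ℝ) (ht : 0 ≤ t) : EE t ≤ 2 * Real.pi * (t + 47 / 15) +
    2 * ‖∫ s : ℝ, ex (s * (t + 47 / 15)) * GG s‖ := by
  have e : EE t = ∫ s : ℝ, (2 * ((1 - Real.cos (s * (t + 47 / 15))) / s ^ 2) +
      2 * (ex (s * (t + 47 / 15)) * GG s).re) := by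
    unfold EE
    apply integral_congr_ae
    filter_upwards [ae_ne] with s hs
    exact energy_pt t s hs
  have i1 : Integrable (fun s : ℝ => 2 * ((1 - Real.cos (s * (t + 47 / 15))) / s ^ 2)) :=
    (int_one_sub_cos _).const_mul 2
  have i2 : Integrable (fun s : ℝ => 2 * (ex (s * (t + 47 / 15)) * GG s).re) :=
    (int_ex_GG _).re.const_mul 2
  rw [e, integral_add i1 i2, integral_const_mul, integral_const_mul]
  have h1 := int_one_sub_cos_le (t + 47 / 15) (by linarith)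
  have h2 : ∫ s : ℝ, (ex (s * (t + 47 / 15)) * GG s).re ≤
      ‖∫ s : ℝ, ex (s * (t + 47 / 15)) * GG s‖ := by
    have := integral_re (int_ex_GG (t + 47 / 15)) (𝕜 := ℂ)
    simp only [RCLike.re_to_complex] at this
    rw [this]
    exact (le_abs_self _).trans (Complex.abs_re_le_norm _)
  nlinarith [Real.pi_pos]

lemma RL : Tendsto (fun B : ℝ => ∫ s : ℝ, ex (s * B) * GG s) atTop (𝓝 0) := by
  have h := Real.tendsto_integral_exp_smul_cocompact GG
  have h2 : Tendsto (fun B : ℝ => -(B / (2 * Real.pi))) atTop (cocompact ℝ) := by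
    refine Tendsto.mono_right ?_ atBot_le_cocompact
    exact tendsto_neg_atTop_atBot.comp (tendsto_id.atTop_div_const (by positivity))
  have h3 := h.comp h2
  refine h3.congr (fun B => ?_)
  simp only [Function.comp]
  refine integral_congr_ae (Eventually.of_forall fun s => ?_)
  simp only
  rw [Circle.smul_def, smul_eq_mul]
  congr 1
  rw [Real.fourierChar_apply]
  unfold ex
  congr 2
  push_cast
  have : (Real.pi : ℂ) ≠ 0 := by exact_mod_cast Real.pi_ne_zero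
  field_simp

theorem EE_eventually : ∀ᶠ t in atTop, EE t ≤ 2 * Real.pi * (t + 3135 / 1000) := by
  have h1 : Tendsto (fun t : ℝ => ‖∫ s : ℝ, ex (s * (t + 47 / 15)) * GG s‖) atTop (𝓝 0) := by
    have h := (RL.comp (tendsto_atTop_add_const_right atTop (47 / 15 : ℝ) tendsto_id)).norm
    simpa using h
  have h2 : ∀ᶠ t in atTop, ‖∫ s : ℝ, ex (s * (t + 47 / 15)) * GG s‖ < 1 / 1000 :=
    h1.eventually (gt_mem_nhds (by norm_num))
  filter_upwards [h2, eventually_ge_atTop (0 : ℝ)] with t ht ht0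
  have h3 := EE_le t ht0
  have h4 := Real.pi_gt_three
  nlinarith

end Pool.Agent.H506R3.MagB
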