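import Mathlib
import Pool.Agent.H506R3.MagB.M3

set_option autoImplicit false

/-!
Two-dimensional kernel representation.
-/

namespace Pool.Agent.H506R3.MagB

open MeasureTheory Set Filter Topology

/-- `(A+s²)^{-3/2}` -/
noncomputable def k3 (A s : ℝ) : ℝ := ((A + s ^ 2) * Real.sqrt (A + s ^ 2))⁻¹

lemma k3_pos (A s : ℝ) (hA : 1 ≤ A) : 0 < k3 A s := by
  unfold k3
  have : 0 < A + s ^ 2 := by positivity
  positivity

lemma k3_cont (A : ℝ) (hA : 1 ≤ A) : Continuous (k3 A) := by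
  unfold k3
  refine Continuous.inv₀ (by fun_prop) (fun s => ?_)
  have : 0 < A + s ^ 2 := by positivity
  positivity

lemma k3_le (A s : ℝ) (hA : 1 ≤ A) : k3 A s ≤ (1 + s ^ 2)⁻¹ := by
  unfold k3
  apply inv_anti₀ (by positivity)
  have h1 : 1 ≤ Real.sqrt (A + s ^ 2) := by
    rw [Real.one_le_sqrt]
    nlinarith [sq_nonneg s]
  nlinarith [sq_nonneg s]

lemma k3_int (A : ℝ) (hA : 1 ≤ A) : Integrable (k3 A) := by
  refine Integrable.mono' integrable_inv_one_add_sq (k3_cont A hA).aestronglyMeasurable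
    (Eventually.of_forall fun s => ?_)
  rw [Real.norm_eq_abs, abs_of_pos (k3_pos A s hA)]
  exact k3_le A s hA

lemma k3_integral (A : ℝ) (hA : 1 ≤ A) : ∫ s : ℝ, k3 A s = 2 / A := by
  have hA0 : 0 < A := by linarith
  have hd : ∀ s : ℝ, HasDerivAt (fun s : ℝ => s / (A * Real.sqrt (A + s ^ 2))) (k3 A s) s := by
    intro s
    have hp : 0 < A + s ^ 2 := by positivity
    have hsq : HasDerivAt (fun s : ℝ => Real.sqrt (A + s ^ 2)) (2 * s / (2 * Real.sqrt (A + s ^ 2))) s := by
      have h0 : HasDerivAt (fun s : ℝ => A + s ^ 2) (2 * s) s := by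
        have := (hasDerivAt_pow 2 s).const_add A
        simpa using this
      exact h0.sqrt hp.ne'
    have h1 := (hasDerivAt_id' s).div (hsq.const_mul A) (by positivity)
    refine h1.congr_deriv ?_
    unfold k3
    have hr : Real.sqrt (A + s ^ 2) ^ 2 = A + s ^ 2 := Real.sq_sqrt hp.le
    have hr0 : 0 < Real.sqrt (A + s ^ 2) := Real.sqrt_pos.2 hp
    set r := Real.sqrt (A + s ^ 2)
    have e1 : (1 * (A * r) - s * (A * (2 * s / (2 * r)))) / (A * r) ^ 2 =
        (r ^ 2 - s ^ 2) / (A * r ^ 3) := by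
      field_simp
    have e2 : r ^ 2 - s ^ 2 = A := by rw [hr]; ring
    rw [e1, e2, ← hr]
    field_simp
  have hlim : Tendsto (fun s : ℝ => s / (A * Real.sqrt (A + s ^ 2))) atTop (𝓝 (1 / A)) := by
    have h1 : Tendsto (fun s : ℝ => (A * Real.sqrt (A / s ^ 2 + 1))⁻¹) atTop
        (𝓝 ((A * Real.sqrt (0 + 1))⁻¹)) := by
      apply Tendsto.inv₀
      · apply Tendsto.const_mul
        apply (Real.continuous_sqrt.tendsto _).comp
        apply Tendsto.add_const
        apply Tendsto.const_div_atTop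
        exact tendsto_pow_atTop (by norm_num)
      · simp [hA0.ne']
    have e : (A * Real.sqrt (0 + 1))⁻¹ = 1 / A := by simp
    rw [e] at h1
    refine h1.congr' ?_
    filter_upwards [eventually_gt_atTop (0 : ℝ)] with s hs
    have : A + s ^ 2 = s ^ 2 * (A / s ^ 2 + 1) := by field_simp
    rw [this, Real.sqrt_mul (by positivity), Real.sqrt_sq hs.le]
    have h3 : 0 < Real.sqrt (A / s ^ 2 + 1) := Real.sqrt_pos.2 (by positivity)
    field_simp
  have hlim2 : Tendsto (fun s : ℝ => s / (A * Real.sqrt (A + s ^ 2))) atBot (𝓝 (-(1 / A))) := by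
    have h1 := (hlim.comp tendsto_neg_atBot_atTop).neg
    refine h1.congr (fun s => ?_)
    simp only [Function.comp]
    rw [neg_sq, neg_div, neg_neg]
  rw [integral_of_hasDerivAt_of_tendsto hd (k3_int A hA) hlim2 hlim]
  ring

/-- the planar density -/
noncomputable def qq (p : ℝ × ℝ) : ℝ := k3 (1 + p.1 ^ 2) p.2

lemma qq_pos (p : ℝ × ℝ) : 0 < qq p := k3_pos _ _ (by nlinarith [sq_nonneg p.1])

lemma qq_cont : Continuous qq := by
  unfold qq k3
  refine Continuous.inv₀ (by fun_prop) (fun s => ?_)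
  have : 0 < 1 + s.1 ^ 2 + s.2 ^ 2 := by positivity
  positivity

lemma qq_eq (z : ℂ) : qq (z.re, z.im) = (1 + ‖z‖ ^ 2) ^ (-(3 : ℝ) / 2) := by
  unfold qq k3
  have h : 1 + z.re ^ 2 + z.im ^ 2 = 1 + ‖z‖ ^ 2 := by
    rw [Complex.sq_norm, Complex.normSq_apply]; ring
  simp only
  rw [h]
  have hp : 0 < 1 + ‖z‖ ^ 2 := by positivity
  have e : -(3 : ℝ) / 2 = -(1 + 1 / 2) := by norm_num
  rw [e, Real.rpow_neg hp.le, Real.rpow_add hp, Real.rpow_one, ← Real.sqrt_eq_rpow]

lemma qqc_int : Integrable (fun z : ℂ => qq (z.re, z.im)) := by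
  simp_rw [qq_eq]
  have := integrable_rpow_neg_one_add_norm_sq (E := ℂ) (μ := volume) (r := 3)
    (by rw [Complex.finrank_real_complex]; norm_num)
  exact this

lemma qq_int : Integrable qq := by
  have h := Complex.volume_preserving_equiv_real_prod
  rw [← h.integrable_comp_emb Complex.measurableEquivRealProd.measurableEmbedding]
  exact qqc_int

lemma qq_ft0 (r : ℝ) (hr : 0 ≤ r) :
    ∫ p : ℝ × ℝ, ex (p.1 * r) * ((qq p : ℝ) : ℂ) = ((2 * Real.pi * Real.exp (-r) : ℝ) : ℂ) := by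
  have hi : Integrable (fun p : ℝ × ℝ => ex (p.1 * r) * ((qq p : ℝ) : ℂ)) :=
    qq_int.ofReal.bdd_mul (c := 1) (ex_cont.comp (by fun_prop)).aestronglyMeasurable
      (Eventually.of_forall fun s => (norm_ex _).le)
  rw [Measure.volume_eq_prod] at hi ⊢
  rw [integral_prod _ hi]
  have e : ∀ s : ℝ, ∫ y : ℝ, ex (s * r) * ((qq (s, y) : ℝ) : ℂ) =
      2 * (ex (s * r) * ((uu 1 s : ℝ) : ℂ)) := by
    intro s
    rw [integral_const_mul]
    unfold qq
    simp only
    rw [integral_complex_ofReal, k3_integral _ (by nlinarith [sq_nonneg s])]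
    unfold uu
    push_cast
    ring
  simp only [e]
  rw [integral_const_mul, uu_ft 1 one_pos r, abs_of_nonneg hr]
  push_cast
  ring

theorem qq_ft (a b : ℝ) :
    ∫ p : ℝ × ℝ, ex (p.1 * a + p.2 * b) * ((qq p : ℝ) : ℂ) =
      ((2 * Real.pi * Real.exp (-Real.sqrt (a ^ 2 + b ^ 2)) : ℝ) : ℂ) := by
  have hv := Complex.volume_preserving_equiv_real_prod
  have hme := Complex.measurableEquivRealProd.measurableEmbedding
  -- transfer to the complex plane
  rw [← hv.integral_comp hme (fun p : ℝ × ℝ => ex (p.1 * a + p.2 * b) * ((qq p : ℝ) : ℂ))]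
  rw [← qq_ft0 _ (Real.sqrt_nonneg _)]
  rw [← hv.integral_comp hme (fun p : ℝ × ℝ => ex (p.1 * Real.sqrt (a ^ 2 + b ^ 2)) *
    ((qq p : ℝ) : ℂ))]
  simp only [Complex.measurableEquivRealProd_apply]
  by_cases h0 : a ^ 2 + b ^ 2 = 0
  · have ha : a = 0 := by nlinarith [sq_nonneg a, sq_nonneg b]
    have hb : b = 0 := by nlinarith [sq_nonneg a, sq_nonneg b]
    subst ha hb
    simp
  · have hpos : 0 < a ^ 2 + b ^ 2 := lt_of_le_of_ne (by positivity) (Ne.symm h0)
    set r := Real.sqrt (a ^ 2 + b ^ 2) with hr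
    have hr0 : 0 < r := Real.sqrt_pos.2 hpos
    have hr2 : r ^ 2 = a ^ 2 + b ^ 2 := Real.sq_sqrt hpos.le
    set u : ℂ := ⟨a / r, -(b / r)⟩ with hu
    have hun : ‖u‖ = 1 := by
      have : ‖u‖ ^ 2 = 1 := by
        rw [Complex.sq_norm, Complex.normSq_apply, hu]
        simp only
        field_simp
        nlinarith
      nlinarith [norm_nonneg u]
    let U : Circle := ⟨u, mem_sphere_zero_iff_norm.2 hun⟩
    have hmp := (rotation U).measurePreserving
    have key := hmp.integral_comp (rotation U).toHomeomorph.measurableEmbedding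
      (fun z : ℂ => ex (z.re * r) * ((qq (z.re, z.im) : ℝ) : ℂ))
    rw [← key]
    refine integral_congr_ae (Eventually.of_forall fun z => ?_)
    simp only [rotation_apply]
    have e2 : ((u * z).re) * r = z.re * a + z.im * b := by
      rw [hu]
      simp only [Complex.mul_re]
      field_simp
      ring
    have e3 : qq ((u * z).re, (u * z).im) = qq (z.re, z.im) := by
      rw [qq_eq, qq_eq, norm_mul, hun, one_mul]
    show ex (z.re * a + z.im * b) * ((qq (z.re, z.im) : ℝ) : ℂ) =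
      ex ((u * z).re * r) * ((qq ((u * z).re, (u * z).im) : ℝ) : ℂ)
    rw [e2, e3]

end Pool.Agent.H506R3.MagB
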