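import Mathlib
import Pool.Agent.H506R3.MagB.M4

set_option autoImplicit false

/-!
Quadratic forms of the kernel `e^{-|x|}` on the plane.
-/

namespace Pool.Agent.H506R3.MagB

open MeasureTheory Set Filter Topology

variable {ι : Type*} [Fintype ι]

/-- transform of a weight -/
noncomputable def Wh (x y w : ι → ℝ) (p : ℝ × ℝ) : ℂ :=
  ∑ i, (w i : ℂ) * ex (p.1 * x i + p.2 * y i)

/-- the quadratic form -/
noncomputable def QQ (x y w : ι → ℝ) : ℝ :=
  ∑ i, ∑ j, w i * w j * Real.exp (-Real.sqrt ((x i - x j) ^ 2 + (y i - y j) ^ 2))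

lemma Wh_cont (x y w : ι → ℝ) : Continuous (Wh x y w) := by
  unfold Wh
  refine continuous_finsetSum _ (fun i _ => ?_)
  exact continuous_const.mul (ex_cont.comp (by fun_prop))

lemma Wh_bdd (x y w : ι → ℝ) (p : ℝ × ℝ) : ‖Wh x y w p‖ ≤ ∑ i, |w i| := by
  unfold Wh
  refine (norm_sum_le _ _).trans (Finset.sum_le_sum fun i _ => ?_)
  rw [norm_mul, norm_ex, mul_one, Complex.norm_real, Real.norm_eq_abs]

lemma Wh_sq (x y w : ι → ℝ) (p : ℝ × ℝ) : ((‖Wh x y w p‖ ^ 2 : ℝ) : ℂ) =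
    ∑ i, ∑ j, ((w i : ℂ) * (w j : ℂ)) * ex (p.1 * (x i - x j) + p.2 * (y i - y j)) := by
  have h1 : ((‖Wh x y w p‖ ^ 2 : ℝ) : ℂ) = Wh x y w p * (starRingEnd ℂ) (Wh x y w p) := by
    rw [Complex.mul_conj, Complex.normSq_eq_norm_sq]
  rw [h1]
  unfold Wh
  rw [map_sum, Finset.sum_mul_sum]
  refine Finset.sum_congr rfl fun i _ => Finset.sum_congr rfl fun j _ => ?_
  rw [map_mul, Complex.conj_ofReal, ← ex_neg]
  have : ex (p.1 * (x i - x j) + p.2 * (y i - y j)) =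
      ex (p.1 * x i + p.2 * y i) * ex (-(p.1 * x j + p.2 * y j)) := by
    rw [← ex_add]; congr 1; ring
  rw [this]
  ring

lemma int_Wq (x y w : ι → ℝ) : Integrable (fun p : ℝ × ℝ => ‖Wh x y w p‖ ^ 2 * qq p) := by
  refine qq_int.bdd_mul (c := (∑ i, |w i|) ^ 2) ?_ (Eventually.of_forall fun p => ?_)
  · exact ((Wh_cont x y w).norm.pow 2).aestronglyMeasurable
  · rw [Real.norm_eq_abs, abs_of_nonneg (by positivity)]
    exact pow_le_pow_left₀ (norm_nonneg _) (Wh_bdd x y w p) 2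

theorem QQ_eq (x y w : ι → ℝ) :
    ∫ p : ℝ × ℝ, ‖Wh x y w p‖ ^ 2 * qq p = 2 * Real.pi * QQ x y w := by
  have h : ((∫ p : ℝ × ℝ, ‖Wh x y w p‖ ^ 2 * qq p : ℝ) : ℂ) =
      ((2 * Real.pi * QQ x y w : ℝ) : ℂ) := by
    rw [← integral_complex_ofReal]
    have e : ∀ p : ℝ × ℝ, ((‖Wh x y w p‖ ^ 2 * qq p : ℝ) : ℂ) =
        ∑ i, ∑ j, ((w i : ℂ) * (w j : ℂ)) *
          (ex (p.1 * (x i - x j) + p.2 * (y i - y j)) * ((qq p : ℝ) : ℂ)) := by
      intro p
      rw [Complex.ofReal_mul, Wh_sq, Finset.sum_mul]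
      refine Finset.sum_congr rfl fun i _ => ?_
      rw [Finset.sum_mul]
      refine Finset.sum_congr rfl fun j _ => ?_
      ring
    simp_rw [e]
    have hi : ∀ i j : ι, Integrable (fun p : ℝ × ℝ => ((w i : ℂ) * (w j : ℂ)) *
          (ex (p.1 * (x i - x j) + p.2 * (y i - y j)) * ((qq p : ℝ) : ℂ))) := by
      intro i j
      apply Integrable.const_mul
      exact qq_int.ofReal.bdd_mul (c := 1) (ex_cont.comp (by fun_prop)).aestronglyMeasurable
        (Eventually.of_forall fun s => (norm_ex _).le)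
    rw [integral_finsetSum _ (fun i _ => integrable_finsetSum _ (fun j _ => hi i j))]
    unfold QQ
    push_cast
    rw [Finset.mul_sum]
    refine Finset.sum_congr rfl fun i _ => ?_
    rw [integral_finsetSum _ (fun j _ => hi i j), Finset.mul_sum]
    refine Finset.sum_congr rfl fun j _ => ?_
    rw [integral_const_mul, qq_ft]
    push_cast
    ring
  exact_mod_cast h

lemma qq_ge (p : ℝ × ℝ) : (Pp p.1 * Pp p.2)⁻¹ ≤ qq p := by
  unfold qq k3
  have h0 : 0 < 1 + p.1 ^ 2 + p.2 ^ 2 := by positivity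
  apply inv_anti₀ (by positivity)
  have h1 := Pp_ge p.1
  have h2 := Pp_ge p.2
  have h3 : 1 + p.1 ^ 2 + p.2 ^ 2 ≤ (1 + p.1 ^ 2) * (1 + p.2 ^ 2) := by
    nlinarith [mul_nonneg (sq_nonneg p.1) (sq_nonneg p.2)]
  have h4 : Real.sqrt (1 + p.1 ^ 2 + p.2 ^ 2) ≤ Real.sqrt (1 + p.1 ^ 2) * Real.sqrt (1 + p.2 ^ 2) := by
    rw [← Real.sqrt_mul (by positivity)]
    exact Real.sqrt_le_sqrt h3
  calc (1 + p.1 ^ 2 + p.2 ^ 2) * Real.sqrt (1 + p.1 ^ 2 + p.2 ^ 2) ≤
      ((1 + p.1 ^ 2) * (1 + p.2 ^ 2)) * (Real.sqrt (1 + p.1 ^ 2) * Real.sqrt (1 + p.2 ^ 2)) := by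
        apply mul_le_mul h3 h4 (Real.sqrt_nonneg _) (by positivity)
    _ = ((1 + p.1 ^ 2) * Real.sqrt (1 + p.1 ^ 2)) * ((1 + p.2 ^ 2) * Real.sqrt (1 + p.2 ^ 2)) := by
        ring
    _ ≤ Pp p.1 * Pp p.2 := by
        apply mul_le_mul h1 h2 (by positivity) (Pp_pos _).le

lemma amgm_close {a b c : ℝ} (ha : 0 ≤ a) (hb : 0 ≤ b) (hc : 0 ≤ c)
    (h : ∀ θ : ℝ, 0 < θ → 2 * c ≤ θ * a + θ⁻¹ * b) : c ^ 2 ≤ a * b := by
  rcases eq_or_lt_of_le hc with hc0 | hc0
  · rw [← hc0, zero_pow two_ne_zero]; exact mul_nonneg ha hb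
  rcases eq_or_lt_of_le ha with ha0 | ha0
  · exfalso
    rw [← ha0] at h
    have hθ : 0 < (b + 1) / c := by positivity
    have := h _ hθ
    rw [mul_zero, zero_add, inv_div, div_mul_eq_mul_div, le_div_iff₀ (by positivity)] at this
    nlinarith
  · have hθ : 0 < c / a := by positivity
    have h1 := h _ hθ
    rw [inv_div, div_mul_cancel₀ _ ha0.ne'] at h1
    have h2 : c ≤ a / c * b := by linarith
    rw [div_mul_eq_mul_div, le_div_iff₀ hc0] at h2
    nlinarith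

/-- total mass identity -/
lemma mass_eq (t : ℝ) (x y w : ι → ℝ) (hx0 : ∀ i, 0 ≤ x i) (hxt : ∀ i, x i ≤ t)
    (hy0 : ∀ i, 0 ≤ y i) (hyt : ∀ i, y i ≤ t) (ht : 0 ≤ t) :
    ∫ p : ℝ × ℝ, HH t p.1 * HH t p.2 * Wh x y w p = ((4 * Real.pi ^ 2 * ∑ i, w i : ℝ) : ℂ) := by
  have hi : ∀ z : ℝ, Integrable (fun s : ℝ => HH t s * ex (s * z)) := by
    intro z
    exact (HH_int t ht).mul_bdd (c := 1) (ex_cont.comp (by fun_prop)).aestronglyMeasurable
      (Eventually.of_forall fun s => (norm_ex _).le)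
  have e : ∀ p : ℝ × ℝ, HH t p.1 * HH t p.2 * Wh x y w p =
      ∑ i, (w i : ℂ) * ((HH t p.1 * ex (p.1 * x i)) * (HH t p.2 * ex (p.2 * y i))) := by
    intro p
    unfold Wh
    rw [Finset.mul_sum]
    refine Finset.sum_congr rfl fun i _ => ?_
    rw [ex_add]
    ring
  simp_rw [e]
  rw [Measure.volume_eq_prod]
  have hi2 : ∀ i : ι, Integrable (fun p : ℝ × ℝ => (w i : ℂ) * ((HH t p.1 * ex (p.1 * x i)) *
      (HH t p.2 * ex (p.2 * y i)))) (volume.prod volume) := by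
    intro i
    exact ((hi (x i)).mul_prod (hi (y i))).const_mul _
  rw [integral_finsetSum _ (fun i _ => hi2 i)]
  push_cast
  rw [Finset.mul_sum]
  refine Finset.sum_congr rfl fun i _ => ?_
  rw [integral_const_mul, integral_prod_mul (fun s : ℝ => HH t s * ex (s * x i))
    (fun s : ℝ => HH t s * ex (s * y i)), HH_one t (x i) (hx0 i) (hxt i),
    HH_one t (y i) (hy0 i) (hyt i)]
  ring

/-- **Upper bound** for total masses. -/
theorem mass_le (t : ℝ) (x y w : ι → ℝ) (hx0 : ∀ i, 0 ≤ x i) (hxt : ∀ i, x i ≤ t)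
    (hy0 : ∀ i, 0 ≤ y i) (hyt : ∀ i, y i ≤ t) (ht : 0 ≤ t) :
    (∑ i, w i) ^ 2 ≤ EE t ^ 2 / (8 * Real.pi ^ 3) * QQ x y w := by
  have hE0 : 0 ≤ EE t := integral_nonneg fun s => mul_nonneg (sq_nonneg _) (Pp_pos s).le
  have hQ0 : 0 ≤ 2 * Real.pi * QQ x y w := by
    rw [← QQ_eq]
    exact integral_nonneg fun p => mul_nonneg (sq_nonneg _) (qq_pos p).le
  have hEE : Integrable (fun p : ℝ × ℝ => (‖HH t p.1‖ ^ 2 * Pp p.1) * (‖HH t p.2‖ ^ 2 * Pp p.2)) := by
    rw [Measure.volume_eq_prod]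
    exact (EE_integrable t).mul_prod (EE_integrable t)
  have hEE2 : ∫ p : ℝ × ℝ, (‖HH t p.1‖ ^ 2 * Pp p.1) * (‖HH t p.2‖ ^ 2 * Pp p.2) = EE t ^ 2 := by
    rw [Measure.volume_eq_prod, integral_prod_mul (fun s : ℝ => ‖HH t s‖ ^ 2 * Pp s)
      (fun s : ℝ => ‖HH t s‖ ^ 2 * Pp s)]
    unfold EE
    ring
  have key : (4 * Real.pi ^ 2 * |∑ i, w i|) ^ 2 ≤ EE t ^ 2 * (2 * Real.pi * QQ x y w) := by
    apply amgm_close (by positivity) hQ0 (by positivity)
    intro θ hθ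
    have h1 : 4 * Real.pi ^ 2 * |∑ i, w i| = ‖∫ p : ℝ × ℝ, HH t p.1 * HH t p.2 * Wh x y w p‖ := by
      rw [mass_eq t x y w hx0 hxt hy0 hyt ht, Complex.norm_real, Real.norm_eq_abs, abs_mul,
        abs_of_pos (by positivity : 0 < 4 * Real.pi ^ 2)]
    have hI : Integrable (fun p : ℝ × ℝ => θ * ((‖HH t p.1‖ ^ 2 * Pp p.1) *
        (‖HH t p.2‖ ^ 2 * Pp p.2)) + θ⁻¹ * (‖Wh x y w p‖ ^ 2 * qq p)) :=
      (hEE.const_mul θ).add ((int_Wq x y w).const_mul θ⁻¹)
    have h2 : ‖∫ p : ℝ × ℝ, HH t p.1 * HH t p.2 * Wh x y w p‖ ≤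
        ∫ p : ℝ × ℝ, (1 / 2) * (θ * ((‖HH t p.1‖ ^ 2 * Pp p.1) *
        (‖HH t p.2‖ ^ 2 * Pp p.2)) + θ⁻¹ * (‖Wh x y w p‖ ^ 2 * qq p)) := by
      apply norm_integral_le_of_norm_le (hI.const_mul _)
      refine Eventually.of_forall fun p => ?_
      rw [norm_mul, norm_mul]
      have h3 := qq_ge p
      have hP1 := Pp_pos p.1
      have hP2 := Pp_pos p.2
      have h4 : ‖Wh x y w p‖ ^ 2 * (Pp p.1 * Pp p.2)⁻¹ ≤ ‖Wh x y w p‖ ^ 2 * qq p :=
        mul_le_mul_of_nonneg_left h3 (sq_nonneg _)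
      have h5 : θ⁻¹ * (‖Wh x y w p‖ ^ 2 * (Pp p.1 * Pp p.2)⁻¹) ≤
          θ⁻¹ * (‖Wh x y w p‖ ^ 2 * qq p) :=
        mul_le_mul_of_nonneg_left h4 (by positivity)
      refine le_trans ?_ (mul_le_mul_of_nonneg_left (add_le_add_right h5 _) (by norm_num))
      set a := ‖HH t p.1‖
      set b := ‖HH t p.2‖
      set c := ‖Wh x y w p‖
      set P := Pp p.1 * Pp p.2 with hP
      have hPpos : 0 < P := mul_pos hP1 hP2
      have e1 : a ^ 2 * Pp p.1 * (b ^ 2 * Pp p.2) = (a * b) ^ 2 * P := by rw [hP]; ring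
      rw [e1]
      have e2 : 0 ≤ (θ * P * (a * b) - c) ^ 2 / (θ * P) := by positivity
      have e3 : (θ * P * (a * b) - c) ^ 2 / (θ * P) =
          θ * ((a * b) ^ 2 * P) + θ⁻¹ * (c ^ 2 * P⁻¹) - 2 * (a * b * c) := by
        field_simp
        ring
      linarith
    rw [integral_const_mul, integral_add (hEE.const_mul θ) ((int_Wq x y w).const_mul θ⁻¹),
      integral_const_mul, integral_const_mul, hEE2, QQ_eq] at h2
    rw [h1]
    linarith
  rw [mul_pow, sq_abs] at key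
  have hpi := Real.pi_pos
  rw [div_mul_eq_mul_div, le_div_iff₀ (by positivity)]
  have e : (4 * Real.pi ^ 2) ^ 2 * (∑ i, w i) ^ 2 =
      (2 * Real.pi) * ((∑ i, w i) ^ 2 * (8 * Real.pi ^ 3)) := by ring
  have e2 : EE t ^ 2 * (2 * Real.pi * QQ x y w) = (2 * Real.pi) * (EE t ^ 2 * QQ x y w) := by ring
  rw [e, e2] at key
  exact le_of_mul_le_mul_left key (by positivity)

/-- strict positivity -/
theorem QQ_pos (x y w : ι → ℝ) (hinj : ∀ i j, x i = x j → y i = y j → i = j) (hw : w ≠ 0) :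
    0 < QQ x y w := by
  classical
  by_contra hcon
  rw [not_lt] at hcon
  have hQ : ∫ p : ℝ × ℝ, ‖Wh x y w p‖ ^ 2 * qq p = 0 := by
    apply le_antisymm
    · rw [QQ_eq]
      exact mul_nonpos_of_nonneg_of_nonpos (by positivity) hcon
    · exact integral_nonneg fun p => mul_nonneg (sq_nonneg _) (qq_pos p).le
  have hc : Continuous (fun p : ℝ × ℝ => ‖Wh x y w p‖ ^ 2 * qq p) :=
    ((Wh_cont x y w).norm.pow 2).mul qq_cont
  have h0 : (fun p : ℝ × ℝ => ‖Wh x y w p‖ ^ 2 * qq p) = 0 := by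
    have h1 := (integral_eq_zero_iff_of_nonneg
      (fun p => mul_nonneg (sq_nonneg _) (qq_pos p).le) (int_Wq x y w)).1 hQ
    exact hc.ae_eq_iff_eq volume continuous_zero |>.1 h1
  have hW : ∀ p, Wh x y w p = 0 := by
    intro p
    have := congrFun h0 p
    simp only [Pi.zero_apply, mul_eq_zero, (qq_pos p).ne', or_false, pow_eq_zero_iff,
      ne_eq, OfNat.ofNat_ne_zero, not_false_eq_true, norm_eq_zero] at this
    exact this
  -- independence of characters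
  let χ : ι → (Multiplicative (ℝ × ℝ) →* ℂ) := fun i =>
    { toFun := fun p => ex ((Multiplicative.toAdd p).1 * x i + (Multiplicative.toAdd p).2 * y i)
      map_one' := by simp [ex_zero]
      map_mul' := by
        intro p q
        rw [← ex_add]
        congr 1
        simp only [toAdd_mul, Prod.fst_add, Prod.snd_add]
        ring }
  have hχ : Function.Injective χ := by
    intro i j hij
    by_contra hne
    have hd : 0 < (x i - x j) ^ 2 + (y i - y j) ^ 2 := by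
      by_contra hd
      rw [not_lt] at hd
      have e1 : x i - x j = 0 := by nlinarith [sq_nonneg (x i - x j), sq_nonneg (y i - y j)]
      have e2 : y i - y j = 0 := by nlinarith [sq_nonneg (x i - x j), sq_nonneg (y i - y j)]
      exact hne (hinj i j (by linarith) (by linarith))
    set D := (x i - x j) ^ 2 + (y i - y j) ^ 2
    have h1 := DFunLike.congr_fun hij (Multiplicative.ofAdd
      ((Real.pi / D * (x i - x j), Real.pi / D * (y i - y j)) : ℝ × ℝ))
    have h2 : ex (Real.pi / D * (x i - x j) * x i + Real.pi / D * (y i - y j) * y i) =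
        ex (Real.pi / D * (x i - x j) * x j + Real.pi / D * (y i - y j) * y j) := h1
    have h3 : ex Real.pi = 1 := by
      have e1 : Real.pi = (Real.pi / D * (x i - x j) * x i + Real.pi / D * (y i - y j) * y i) +
          -(Real.pi / D * (x i - x j) * x j + Real.pi / D * (y i - y j) * y j) := by
        have : Real.pi = Real.pi / D * D := by field_simp
        conv_lhs => rw [this]
        simp only [D]
        ring
      rw [e1, ex_add, h2, ex_mul_neg]
    have h4 := congrArg Complex.re h3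
    rw [ex_re, Real.cos_pi, Complex.one_re] at h4
    norm_num at h4
  have hli := (linearIndependent_monoidHom (Multiplicative (ℝ × ℝ)) ℂ).comp χ hχ
  rw [Fintype.linearIndependent_iff] at hli
  apply hw
  funext i
  have := hli (fun i => (w i : ℂ)) (by
    funext p
    have h := hW (Multiplicative.toAdd p)
    unfold Wh at h
    simp only [Finset.sum_apply, Pi.smul_apply, smul_eq_mul, Pi.zero_apply, Function.comp]
    exact h) i
  exact_mod_cast this

end Pool.Agent.H506R3.MagB
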