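import Mathlib
import Pool.Agent.H506R3.MagB.M5
import Pool.Agent.H506R3.Mag.Fin

set_option autoImplicit false

/-!
Magnitude of subsets of the Euclidean plane.
-/

namespace Pool.Agent.H506R3.MagB

open MeasureTheory Set Filter Topology Matrix

abbrev E2 := EuclideanSpace ℝ (Fin 2)

lemma dist_E2 (p q : E2) : dist p q = Real.sqrt ((p 0 - q 0) ^ 2 + (p 1 - q 1) ^ 2) := by
  rw [EuclideanSpace.dist_eq, Fin.sum_univ_two, Real.dist_eq, Real.dist_eq, sq_abs, sq_abs]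

/-- similarity matrix -/
noncomputable def ZM (F : Finset E2) : Matrix ↥F ↥F ℝ :=
  Matrix.of (fun x y : ↥F => Real.exp (-dist x.1 y.1))

open Classical in
/-- magnitude of a finite set -/
noncomputable def fs (F : Finset E2) : ℝ := ∑ i, ∑ j, (ZM F)⁻¹ i j

/-- coordinates of a family of points -/
noncomputable def cx {ι : Type*} (P : ι → E2) (i : ι) : ℝ := P i 0
noncomputable def cy {ι : Type*} (P : ι → E2) (i : ι) : ℝ := P i 1

lemma quad_ZM (F : Finset E2) (v : ↥F → ℝ) :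
    v ⬝ᵥ (ZM F *ᵥ v) = QQ (fun i : ↥F => i.1 0) (fun i : ↥F => i.1 1) v := by
  rw [Mag.quad_eq]
  unfold QQ ZM
  refine Finset.sum_congr rfl fun i _ => Finset.sum_congr rfl fun j _ => ?_
  rw [Matrix.of_apply, dist_E2]

lemma ZM_posDef (F : Finset E2) : (ZM F).PosDef := by
  apply Matrix.PosDef.of_dotProduct_mulVec_pos
  · ext i j
    simp [ZM, Matrix.conjTranspose_apply, dist_comm]
  · intro v hv
    rw [star_trivial, quad_ZM]
    apply QQ_pos _ _ _ _ hv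
    intro i j h1 h2
    apply Subtype.ext
    ext k
    fin_cases k
    · exact h1
    · exact h2

lemma fs_cs (F : Finset E2) (v : ↥F → ℝ) :
    (∑ i, v i) ^ 2 ≤ fs F * QQ (fun i : ↥F => i.1 0) (fun i : ↥F => i.1 1) v := by
  classical
  have h := Mag.posdef_cs (ZM_posDef F) 1 v
  rw [quad_ZM] at h
  have h1 : (1 : ↥F → ℝ) ⬝ᵥ v = ∑ i, v i := by simp [dotProduct]
  rw [h1] at h
  have h2 : fs F = 1 ⬝ᵥ ((ZM F)⁻¹ *ᵥ 1) := by
    rw [← Mag.sum_inv_eq]
    unfold fs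
    congr!
  rw [h2]
  exact h

lemma fs_nonneg (F : Finset E2) : 0 ≤ fs F := by
  classical
  have h2 : fs F = 1 ⬝ᵥ ((ZM F)⁻¹ *ᵥ 1) := by
    rw [← Mag.sum_inv_eq]
    unfold fs
    congr!
  rw [h2]
  have := (ZM_posDef F).inv.posSemidef.dotProduct_mulVec_nonneg (1 : ↥F → ℝ)
  simpa using this

lemma fs_le_of (F : Finset E2) (K : ℝ) (hK : 0 ≤ K)
    (h : ∀ v : ↥F → ℝ, (∑ i, v i) ^ 2 ≤ K * QQ (fun i : ↥F => i.1 0) (fun i : ↥F => i.1 1) v) :
    fs F ≤ K := by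
  classical
  have h2 : fs F = 1 ⬝ᵥ ((ZM F)⁻¹ *ᵥ 1) := by
    rw [← Mag.sum_inv_eq]
    unfold fs
    congr!
  have h3 := h ((ZM F)⁻¹ *ᵥ 1)
  rw [← quad_ZM, Mag.weighting _ (ZM_posDef F), ← h2] at h3
  have h4 : ∑ i, ((ZM F)⁻¹ *ᵥ (1 : ↥F → ℝ)) i = fs F := by
    rw [h2]; simp [dotProduct]
  rw [h4] at h3
  have h5 := fs_nonneg F
  rcases eq_or_lt_of_le h5 with h6 | h6
  · rw [← h6]; exact hK
  · nlinarith

/-- rectangles -/
def RR (a b c d : ℝ) : Set E2 := {p | a ≤ p 0 ∧ p 0 ≤ b ∧ c ≤ p 1 ∧ p 1 ≤ d}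

noncomputable def KK (t : ℝ) : ℝ := EE t ^ 2 / (8 * Real.pi ^ 3)

lemma KK_nonneg (t : ℝ) : 0 ≤ KK t := by
  unfold KK
  have := Real.pi_pos
  positivity

lemma QQ_shift {ι : Type*} [Fintype ι] (x y w : ι → ℝ) (a b : ℝ) :
    QQ (fun i => x i - a) (fun i => y i - b) w = QQ x y w := by
  unfold QQ
  refine Finset.sum_congr rfl fun i _ => Finset.sum_congr rfl fun j _ => ?_
  have e1 : x i - a - (x j - a) = x i - x j := by ring
  have e2 : y i - b - (y j - b) = y i - y j := by ring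
  rw [e1, e2]

lemma fs_le (F : Finset E2) (a b c d t : ℝ) (ht : 0 ≤ t) (h1 : b - a ≤ t) (h2 : d - c ≤ t)
    (hF : (F : Set E2) ⊆ RR a b c d) : fs F ≤ KK t := by
  apply fs_le_of _ _ (KK_nonneg t)
  intro v
  rw [← QQ_shift _ _ _ a c]
  apply mass_le t _ _ _ _ _ _ _ ht
  · intro i
    have := (hF i.2).1
    simp only
    linarith
  · intro i
    have := (hF i.2).2.1
    simp only
    linarith
  · intro i
    have := (hF i.2).2.2.1
    simp only
    linarith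
  · intro i
    have := (hF i.2).2.2.2
    simp only
    linarith

/-- magnitude of a set -/
noncomputable def Mg (S : Set E2) : ℝ := ⨆ F : Finset E2, ⨆ (_ : (F : Set E2) ⊆ S), fs F

lemma Mg_le (S : Set E2) (K : ℝ) (hK : 0 ≤ K) (h : ∀ F : Finset E2, (F : Set E2) ⊆ S → fs F ≤ K) :
    Mg S ≤ K :=
  Real.iSup_le (fun F => Real.iSup_le (fun hF => h F hF) hK) hK

lemma le_Mg (S : Set E2) (K : ℝ) (hK : 0 ≤ K) (h : ∀ F : Finset E2, (F : Set E2) ⊆ S → fs F ≤ K)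
    (F : Finset E2) (hF : (F : Set E2) ⊆ S) : fs F ≤ Mg S := by
  have hb : BddAbove (range (fun F : Finset E2 => ⨆ (_ : (F : Set E2) ⊆ S), fs F)) := by
    refine ⟨K, ?_⟩
    rintro _ ⟨F, rfl⟩
    exact Real.iSup_le (fun hF => h F hF) hK
  have := le_ciSup hb F
  rwa [ciSup_pos hF] at this

lemma Mg_nonneg (S : Set E2) : 0 ≤ Mg S :=
  Real.iSup_nonneg (fun F => Real.iSup_nonneg (fun _ => fs_nonneg F))

lemma le_Mg_RR (a b c d : ℝ) (F : Finset E2) (hF : (F : Set E2) ⊆ RR a b c d) :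
    fs F ≤ Mg (RR a b c d) := by
  refine le_Mg _ (KK (max (max (b - a) (d - c)) 0)) (KK_nonneg _) (fun F hF => ?_) F hF
  exact fs_le F a b c d _ (le_max_right _ _) ((le_max_left _ _).trans (le_max_left _ _))
    ((le_max_right _ _).trans (le_max_left _ _)) hF

lemma Mg_sq_le (a c t : ℝ) (ht : 0 ≤ t) : Mg (RR a (a + t) c (c + t)) ≤ KK t :=
  Mg_le _ _ (KK_nonneg t) (fun F hF => fs_le F a (a + t) c (c + t) t ht (by linarith)
    (by linarith) hF)

/-- translation by `(u, v)` -/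
noncomputable def tr (u v : ℝ) (p : E2) : E2 := !₂[p 0 + u, p 1 + v]

lemma tr_zero (u v : ℝ) (p : E2) : tr u v p 0 = p 0 + u := by simp [tr]
lemma tr_one (u v : ℝ) (p : E2) : tr u v p 1 = p 1 + v := by simp [tr]

lemma tr_dist (u v : ℝ) (p q : E2) : dist (tr u v p) (tr u v q) = dist p q := by
  rw [dist_E2, dist_E2, tr_zero, tr_zero, tr_one, tr_one]
  congr 2
  all_goals ring

lemma tr_inj (u v : ℝ) : Function.Injective (tr u v) := by
  intro p q h
  have := tr_dist u v p q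
  rw [h, dist_self] at this
  exact dist_eq_zero.1 this.symm

lemma fs_tr_le (u v : ℝ) (F : Finset E2) :
    fs F ≤ fs (F.map ⟨tr u v, tr_inj u v⟩) := by
  classical
  set F' := F.map ⟨tr u v, tr_inj u v⟩ with hF'
  apply fs_le_of _ _ (fs_nonneg _)
  intro w
  -- transport the weight
  let e : ↥F ≃ ↥F' := Equiv.ofBijective
    (fun p => ⟨tr u v p.1, by rw [hF']; exact Finset.mem_map.2 ⟨p.1, p.2, rfl⟩⟩)
    ⟨fun p q h => Subtype.ext (tr_inj u v (congrArg Subtype.val h)), fun q => by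
      have hq : q.1 ∈ F.map ⟨tr u v, tr_inj u v⟩ := q.2
      obtain ⟨p, hp, hpq⟩ := Finset.mem_map.1 hq
      exact ⟨⟨p, hp⟩, Subtype.ext hpq⟩⟩
  have h := fs_cs F' (fun q => w (e.symm q))
  have h1 : ∑ q, w (e.symm q) = ∑ p, w p := Equiv.sum_comp e.symm w
  rw [h1] at h
  refine h.trans (le_of_eq ?_)
  congr 1
  unfold QQ
  rw [← Equiv.sum_comp e]
  refine Finset.sum_congr rfl fun i _ => ?_
  rw [← Equiv.sum_comp e]
  refine Finset.sum_congr rfl fun j _ => ?_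
  simp only [Equiv.symm_apply_apply]
  rw [← dist_E2, ← dist_E2]
  show w i * w j * Real.exp (-dist (tr u v i.1) (tr u v j.1)) = _
  rw [tr_dist]

lemma Mg_tr_le (a b c d u v : ℝ) : Mg (RR a b c d) ≤ Mg (RR (a + u) (b + u) (c + v) (d + v)) := by
  apply Mg_le _ _ (Mg_nonneg _)
  intro F hF
  refine (fs_tr_le u v F).trans (le_Mg_RR _ _ _ _ _ ?_)
  intro q hq
  rw [Finset.mem_coe] at hq
  obtain ⟨p, hp, rfl⟩ := Finset.mem_map.1 hq
  have := hF (Finset.mem_coe.2 hp)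
  obtain ⟨h1, h2, h3, h4⟩ := this
  refine ⟨?_, ?_, ?_, ?_⟩
  · show a + u ≤ tr u v p 0
    rw [tr_zero]; linarith
  · show tr u v p 0 ≤ b + u
    rw [tr_zero]; linarith
  · show c + v ≤ tr u v p 1
    rw [tr_one]; linarith
  · show tr u v p 1 ≤ d + v
    rw [tr_one]; linarith

lemma Mg_tr (a b c d u v : ℝ) : Mg (RR (a + u) (b + u) (c + v) (d + v)) = Mg (RR a b c d) := by
  apply le_antisymm
  · have := Mg_tr_le (a + u) (b + u) (c + v) (d + v) (-u) (-v)
    simpa using this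
  · exact Mg_tr_le a b c d u v

/-- lower bound by uniform weights -/
lemma Mg_lower {ι : Type*} [Fintype ι] (S : Set E2) (P : ι → E2) (hP : Function.Injective P)
    (a b c d : ℝ) (hS : S = RR a b c d) (hPS : ∀ i, P i ∈ S) :
    (Fintype.card ι : ℝ) ^ 2 ≤ Mg S * ∑ i, ∑ j, Real.exp (-dist (P i) (P j)) := by
  classical
  subst hS
  set F := Finset.univ.map ⟨P, hP⟩ with hF
  let e : ι ≃ ↥F := Equiv.ofBijective
    (fun p => ⟨P p, by rw [hF]; exact Finset.mem_map.2 ⟨p, Finset.mem_univ _, rfl⟩⟩)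
    ⟨fun p q h => hP (congrArg Subtype.val h), fun q => by
      have hq : q.1 ∈ Finset.univ.map ⟨P, hP⟩ := q.2
      obtain ⟨p, hp, hpq⟩ := Finset.mem_map.1 hq
      exact ⟨p, Subtype.ext hpq⟩⟩
  have h := fs_cs F (fun _ => 1)
  have h1 : ∑ _q : ↥F, (1 : ℝ) = Fintype.card ι := by
    rw [← Equiv.sum_comp e]; simp
  rw [h1] at h
  have h2 : QQ (fun i : ↥F => i.1 0) (fun i : ↥F => i.1 1) (fun _ => 1) =
      ∑ i, ∑ j, Real.exp (-dist (P i) (P j)) := by
    unfold QQ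
    rw [← Equiv.sum_comp e]
    refine Finset.sum_congr rfl fun i _ => ?_
    rw [← Equiv.sum_comp e]
    refine Finset.sum_congr rfl fun j _ => ?_
    rw [← dist_E2, one_mul, one_mul]
    rfl
  rw [h2] at h
  refine h.trans (mul_le_mul_of_nonneg_right ?_ ?_)
  · apply le_Mg_RR
    intro q hq
    rw [Finset.mem_coe] at hq
    obtain ⟨p, hp, rfl⟩ := Finset.mem_map.1 hq
    exact hPS p
  · exact Finset.sum_nonneg fun i _ => Finset.sum_nonneg fun j _ => (Real.exp_pos _).le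

end Pool.Agent.H506R3.MagB
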