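import Mathlib
import Pool.Agent.H506R3.MagB.M6

set_option autoImplicit false

/-!
Lower bounds for the magnitude of segments and squares.
-/

namespace Pool.Agent.H506R3.MagB

open MeasureTheory Set Filter Topology

lemma geom_le (q : ℝ) (hq0 : 0 ≤ q) (hq1 : q < 1) (n : ℕ) :
    ∑ k ∈ Finset.range n, q ^ k ≤ 1 / (1 - q) := by
  rw [le_div_iff₀ (by linarith), mul_comm, mul_neg_geom_sum]
  have : 0 ≤ q ^ n := by positivity
  linarith

lemma seg_sum (δ : ℝ) (hδ : 0 < δ) (N i : ℕ) (hi : i < N) :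
    ∑ j ∈ Finset.range N, Real.exp (-(|(i : ℝ) - j| * δ)) ≤ 2 / (1 - Real.exp (-δ)) := by
  set q := Real.exp (-δ) with hq
  have hq0 : 0 < q := Real.exp_pos _
  have hq1 : q < 1 := by rw [hq, Real.exp_lt_one_iff]; linarith
  rw [← Finset.sum_range_add_sum_Ico _ hi.le]
  have h1 : ∑ j ∈ Finset.range i, Real.exp (-(|(i : ℝ) - j| * δ)) ≤ 1 / (1 - q) := by
    refine le_trans ?_ (geom_le q hq0.le hq1 i)
    rw [← Finset.sum_range_reflect]
    refine Finset.sum_le_sum fun j hj => ?_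
    rw [Finset.mem_range] at hj
    have e : Real.exp (-(|(i : ℝ) - ((i - 1 - j : ℕ) : ℝ)| * δ)) = q ^ (j + 1) := by
      have h2 : ((i - 1 - j : ℕ) : ℝ) = i - 1 - j := by
        rw [Nat.sub_sub, Nat.cast_sub (by omega)]; push_cast; ring
      rw [h2, abs_of_nonneg (by ring_nf; positivity), hq, ← Real.exp_nat_mul]
      congr 1
      push_cast
      ring
    rw [e]
    exact pow_le_pow_of_le_one hq0.le hq1.le (Nat.le_succ j)
  have h2 : ∑ j ∈ Finset.Ico i N, Real.exp (-(|(i : ℝ) - j| * δ)) ≤ 1 / (1 - q) := by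
    refine le_trans ?_ (geom_le q hq0.le hq1 (N - i))
    rw [Finset.sum_Ico_eq_sum_range]
    refine Finset.sum_le_sum fun j hj => ?_
    apply le_of_eq
    rw [hq, ← Real.exp_nat_mul, abs_sub_comm, abs_of_nonneg (by push_cast; linarith [Nat.cast_nonneg (α := ℝ) j])]
    congr 1
    push_cast
    ring
  have : 2 / (1 - q) = 1 / (1 - q) + 1 / (1 - q) := by ring
  rw [this]
  exact add_le_add h1 h2

/-- segment lower bound with `N` points -/
lemma seg_lower (S : Set E2) (ℓ : ℝ) (hℓ : 0 < ℓ) (a b c d : ℝ) (hS : S = RR a b c d) (N : ℕ)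
    (hN : 0 < N) (P : Fin N → E2) (hPS : ∀ i, P i ∈ S)
    (hd : ∀ i j, dist (P i) (P j) = |(i : ℝ) - j| * (ℓ / N)) :
    ℓ * N / (N + ℓ) / 2 ≤ Mg S := by
  have hN' : (0 : ℝ) < N := by exact_mod_cast hN
  set δ := ℓ / N with hδ
  have hδ0 : 0 < δ := by positivity
  have hinj : Function.Injective P := by
    intro i j h
    have := hd i j
    rw [h, dist_self] at this
    have h1 : |(i : ℝ) - j| = 0 := by
      rcases mul_eq_zero.1 this.symm with h1 | h1
      · exact h1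
      · exact absurd h1 hδ0.ne'
    rw [abs_eq_zero, sub_eq_zero] at h1
    exact Fin.ext (by exact_mod_cast h1)
  have h := Mg_lower S P hinj a b c d hS hPS
  rw [Fintype.card_fin] at h
  have h1 : ∑ i : Fin N, ∑ j : Fin N, Real.exp (-dist (P i) (P j)) ≤
      N * (2 / (1 - Real.exp (-δ))) := by
    have : ∀ i : Fin N, ∑ j : Fin N, Real.exp (-dist (P i) (P j)) ≤ 2 / (1 - Real.exp (-δ)) := by
      intro i
      simp_rw [hd]
      have e := Fin.sum_univ_eq_sum_range (fun j : ℕ => Real.exp (-(|((i : ℕ) : ℝ) - j| * δ))) N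
      rw [e]
      exact seg_sum δ hδ0 N i i.2
    calc ∑ i : Fin N, ∑ j : Fin N, Real.exp (-dist (P i) (P j)) ≤
        ∑ _i : Fin N, 2 / (1 - Real.exp (-δ)) := Finset.sum_le_sum fun i _ => this i
      _ = N * (2 / (1 - Real.exp (-δ))) := by simp
  have hq1 : Real.exp (-δ) < 1 := by rw [Real.exp_lt_one_iff]; linarith
  have h2 := h.trans (mul_le_mul_of_nonneg_left h1 (Mg_nonneg S))
  -- simplify
  have h3 : (N : ℝ) * (1 - Real.exp (-δ)) ≤ 2 * Mg S := by
    have h4 : Mg S * (N * (2 / (1 - Real.exp (-δ)))) * (1 - Real.exp (-δ)) = 2 * Mg S * N := by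
      have : 1 - Real.exp (-δ) ≠ 0 := by linarith
      field_simp
    have h5 : (N : ℝ) ^ 2 * (1 - Real.exp (-δ)) ≤ 2 * Mg S * N := by
      rw [← h4]
      exact mul_le_mul_of_nonneg_right h2 (by linarith)
    have h6 : N * (N * (1 - Real.exp (-δ))) ≤ N * (2 * Mg S) := by nlinarith
    exact le_of_mul_le_mul_left h6 hN'
  have h7 : δ / (1 + δ) ≤ 1 - Real.exp (-δ) := by
    have h8 : Real.exp (-δ) ≤ 1 / (1 + δ) := by
      rw [Real.exp_neg, ← one_div]
      apply one_div_le_one_div_of_le (by linarith)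
      have := Real.add_one_le_exp δ
      linarith
    have h9 : δ / (1 + δ) = 1 - 1 / (1 + δ) := by field_simp; ring
    linarith
  have h10 : ℓ * N / (N + ℓ) = N * (δ / (1 + δ)) := by
    rw [hδ]
    field_simp
  rw [h10]
  have h11 := mul_le_mul_of_nonneg_left h7 hN'.le
  linarith

lemma lim_seg (ℓ : ℝ) : Tendsto (fun N : ℕ => ℓ * N / (N + ℓ) / 2) atTop (𝓝 (ℓ / 2)) := by
  have h1 : Tendsto (fun N : ℕ => ℓ / (1 + ℓ / N) / 2) atTop (𝓝 (ℓ / (1 + 0) / 2)) := by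
    apply Tendsto.div_const
    apply Tendsto.div tendsto_const_nhds _ (by norm_num)
    exact tendsto_const_nhds.add (tendsto_const_div_atTop_nhds_zero_nat ℓ)
  rw [add_zero, div_one] at h1
  refine h1.congr' ?_
  filter_upwards [eventually_gt_atTop 0] with N hN
  have hN' : (N : ℝ) ≠ 0 := by positivity
  congr 1
  field_simp

theorem vert_lower (a c d : ℝ) (h : c < d) : (d - c) / 2 ≤ Mg (RR a a c d) := by
  apply le_of_tendsto (lim_seg (d - c))
  filter_upwards [eventually_gt_atTop 0] with N hN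
  have hN' : (0 : ℝ) < N := by exact_mod_cast hN
  apply seg_lower (RR a a c d) (d - c) (by linarith) a a c d rfl N hN
    (fun i => !₂[a, c + i * ((d - c) / N)])
  · intro i
    have hi : (i : ℝ) ≤ N := by exact_mod_cast i.2.le
    have h0 : 0 ≤ (i : ℝ) * ((d - c) / N) := by
      have : 0 ≤ (d - c) / N := div_nonneg (by linarith) hN'.le
      positivity
    have h1 : (i : ℝ) * ((d - c) / N) ≤ d - c := by
      have : 0 ≤ (d - c) / N := div_nonneg (by linarith) hN'.le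
      calc (i : ℝ) * ((d - c) / N) ≤ N * ((d - c) / N) := mul_le_mul_of_nonneg_right hi this
        _ = d - c := by field_simp
    refine ⟨?_, ?_, ?_, ?_⟩
    · simp
    · simp
    · simpa using h0
    · have : c + (i : ℝ) * ((d - c) / N) ≤ d := by linarith
      simpa using this
  · intro i j
    rw [dist_E2]
    have e : (!₂[a, c + (i : ℝ) * ((d - c) / N)] : E2) 0 - (!₂[a, c + (j : ℝ) * ((d - c) / N)] : E2) 0 = 0 := by
      simp
    have e2 : (!₂[a, c + (i : ℝ) * ((d - c) / N)] : E2) 1 - (!₂[a, c + (j : ℝ) * ((d - c) / N)] : E2) 1 =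
        ((i : ℝ) - j) * ((d - c) / N) := by
      simp
      ring
    rw [e, e2, zero_pow two_ne_zero, zero_add, Real.sqrt_sq_eq_abs, abs_mul,
      abs_of_nonneg (div_nonneg (by linarith) hN'.le : 0 ≤ (d - c) / N)]

theorem horiz_lower (a b c : ℝ) (h : a < b) : (b - a) / 2 ≤ Mg (RR a b c c) := by
  apply le_of_tendsto (lim_seg (b - a))
  filter_upwards [eventually_gt_atTop 0] with N hN
  have hN' : (0 : ℝ) < N := by exact_mod_cast hN
  apply seg_lower (RR a b c c) (b - a) (by linarith) a b c c rfl N hN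
    (fun i => !₂[a + i * ((b - a) / N), c])
  · intro i
    have hi : (i : ℝ) ≤ N := by exact_mod_cast i.2.le
    have h0 : 0 ≤ (i : ℝ) * ((b - a) / N) := by
      have : 0 ≤ (b - a) / N := div_nonneg (by linarith) hN'.le
      positivity
    have h1 : (i : ℝ) * ((b - a) / N) ≤ b - a := by
      have : 0 ≤ (b - a) / N := div_nonneg (by linarith) hN'.le
      calc (i : ℝ) * ((b - a) / N) ≤ N * ((b - a) / N) := mul_le_mul_of_nonneg_right hi this
        _ = b - a := by field_simp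
    refine ⟨?_, ?_, ?_, ?_⟩
    · simpa using h0
    · have : a + (i : ℝ) * ((b - a) / N) ≤ b := by linarith
      simpa using this
    · simp
    · simp
  · intro i j
    rw [dist_E2]
    have e : (!₂[a + (i : ℝ) * ((b - a) / N), c] : E2) 1 - (!₂[a + (j : ℝ) * ((b - a) / N), c] : E2) 1 = 0 := by
      simp
    have e2 : (!₂[a + (i : ℝ) * ((b - a) / N), c] : E2) 0 - (!₂[a + (j : ℝ) * ((b - a) / N), c] : E2) 0 =
        ((i : ℝ) - j) * ((b - a) / N) := by
      simp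
      ring
    rw [e, e2, zero_pow two_ne_zero, add_zero, Real.sqrt_sq_eq_abs, abs_mul,
      abs_of_nonneg (div_nonneg (by linarith) hN'.le : 0 ≤ (b - a) / N)]

/-! ### squares -/

noncomputable def ek (p : ℝ × ℝ) : ℝ := Real.exp (-Real.sqrt (p.1 ^ 2 + p.2 ^ 2))

lemma ek_integral : ∫ p : ℝ × ℝ, ek p = 2 * Real.pi := by
  have hv := Complex.volume_preserving_equiv_real_prod
  have hme := Complex.measurableEquivRealProd.measurableEmbedding
  rw [← hv.integral_comp hme ek]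
  have h := Complex.integral_exp_neg_rpow (p := 1) le_rfl
  have e : ∀ z : ℂ, ek (Complex.measurableEquivRealProd z) = Real.exp (-‖z‖ ^ (1 : ℝ)) := by
    intro z
    unfold ek
    rw [Complex.measurableEquivRealProd_apply, Real.rpow_one]
    congr 2
    rw [Complex.norm_def, Complex.normSq_apply]
    congr 1
    simp only
    ring
  simp_rw [e]
  rw [h]
  have : (2 : ℝ) / 1 + 1 = (2 : ℕ) + 1 := by norm_num
  rw [this, Real.Gamma_nat_eq_factorial]
  norm_num
  ring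

lemma ek_int : Integrable ek := by
  apply Integrable.of_integral_ne_zero
  rw [ek_integral]
  positivity

noncomputable def cell (δ : ℝ) (k : ℤ × ℤ) : Set (ℝ × ℝ) :=
  Ico (k.1 * δ) ((k.1 + 1) * δ) ×ˢ Ico (k.2 * δ) ((k.2 + 1) * δ)

lemma cell_meas (δ : ℝ) (k : ℤ × ℤ) : MeasurableSet (cell δ k) :=
  measurableSet_Ico.prod measurableSet_Ico

lemma cell_disj (δ : ℝ) (hδ : 0 < δ) : Pairwise (Function.onFun Disjoint (cell δ)) := by
  have key : ∀ (k l : ℤ) (x : ℝ), x ∈ Ico (k * δ) ((k + 1) * δ) → x ∈ Ico (l * δ) ((l + 1) * δ) →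
      k ≤ l := by
    intro k l x h1 h2
    have h3 : (k : ℝ) * δ < (l + 1) * δ := lt_of_le_of_lt h1.1 h2.2
    have h4 : (k : ℝ) < l + 1 := lt_of_mul_lt_mul_right h3 hδ.le
    have h5 : k < l + 1 := by exact_mod_cast h4
    omega
  intro k l hkl
  rw [Function.onFun, Set.disjoint_left]
  rintro ⟨x, y⟩ ⟨h1, h2⟩ ⟨h3, h4⟩
  apply hkl
  apply Prod.ext
  · exact le_antisymm (key _ _ x h1 h3) (key _ _ x h3 h1)
  · exact le_antisymm (key _ _ y h2 h4) (key _ _ y h4 h2)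

lemma cell_vol (δ : ℝ) (hδ : 0 < δ) (k : ℤ × ℤ) : volume (cell δ k) = ENNReal.ofReal (δ ^ 2) := by
  unfold cell
  rw [Measure.volume_eq_prod, Measure.prod_prod, Real.volume_Ico, Real.volume_Ico,
    ← ENNReal.ofReal_mul (by ring_nf; exact hδ.le)]
  congr 1
  ring

lemma cell_low (δ : ℝ) (hδ : 0 < δ) (k : ℤ × ℤ) (p : ℝ × ℝ) (hp : p ∈ cell δ k) :
    Real.exp (-(δ * Real.sqrt ((k.1 : ℝ) ^ 2 + (k.2 : ℝ) ^ 2))) ≤ Real.exp (2 * δ) * ek p := by
  unfold ek
  rw [← Real.exp_add]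
  apply Real.exp_le_exp.2
  obtain ⟨⟨h1, h2⟩, h3, h4⟩ := hp
  -- triangle inequality
  have h5 : Real.sqrt (p.1 ^ 2 + p.2 ^ 2) ≤
      δ * Real.sqrt ((k.1 : ℝ) ^ 2 + (k.2 : ℝ) ^ 2) + 2 * δ := by
    apply Real.sqrt_le_iff.2
    have hs := Real.sqrt_nonneg ((k.1 : ℝ) ^ 2 + (k.2 : ℝ) ^ 2)
    refine ⟨by positivity, ?_⟩
    have hsq : Real.sqrt ((k.1 : ℝ) ^ 2 + (k.2 : ℝ) ^ 2) ^ 2 = (k.1 : ℝ) ^ 2 + (k.2 : ℝ) ^ 2 :=
      Real.sq_sqrt (by positivity)
    set r := Real.sqrt ((k.1 : ℝ) ^ 2 + (k.2 : ℝ) ^ 2)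
    have hk1 : |(k.1 : ℝ)| ≤ r := by
      apply abs_le_of_sq_le_sq _ hs
      rw [hsq]; nlinarith [sq_nonneg (k.2 : ℝ)]
    have hk2 : |(k.2 : ℝ)| ≤ r := by
      apply abs_le_of_sq_le_sq _ hs
      rw [hsq]; nlinarith [sq_nonneg (k.1 : ℝ)]
    set u := p.1 - k.1 * δ with hu
    set v := p.2 - k.2 * δ with hv
    have hu0 : 0 ≤ u := by linarith
    have hu1 : u ≤ δ := by linarith
    have hv0 : 0 ≤ v := by linarith
    have hv1 : v ≤ δ := by linarith
    have e1 : p.1 = k.1 * δ + u := by rw [hu]; ring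
    have e2 : p.2 = k.2 * δ + v := by rw [hv]; ring
    rw [e1, e2]
    have g1 : (k.1 : ℝ) * u ≤ r * δ := by
      calc (k.1 : ℝ) * u ≤ |(k.1 : ℝ)| * u := mul_le_mul_of_nonneg_right (le_abs_self _) hu0
        _ ≤ r * δ := mul_le_mul hk1 hu1 hu0 hs
    have g2 : (k.2 : ℝ) * v ≤ r * δ := by
      calc (k.2 : ℝ) * v ≤ |(k.2 : ℝ)| * v := mul_le_mul_of_nonneg_right (le_abs_self _) hv0
        _ ≤ r * δ := mul_le_mul hk2 hv1 hv0 hs
    have g3 : δ * ((k.1 : ℝ) * u) ≤ δ * (r * δ) := mul_le_mul_of_nonneg_left g1 hδ.le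
    have g4 : δ * ((k.2 : ℝ) * v) ≤ δ * (r * δ) := mul_le_mul_of_nonneg_left g2 hδ.le
    have g5 : u ^ 2 ≤ δ ^ 2 := pow_le_pow_left₀ hu0 hu1 2
    have g6 : v ^ 2 ≤ δ ^ 2 := pow_le_pow_left₀ hv0 hv1 2
    nlinarith
  linarith

lemma cell_sum (δ : ℝ) (hδ : 0 < δ) (T : Finset (ℤ × ℤ)) :
    δ ^ 2 * ∑ k ∈ T, Real.exp (-(δ * Real.sqrt ((k.1 : ℝ) ^ 2 + (k.2 : ℝ) ^ 2))) ≤
      Real.exp (2 * δ) * (2 * Real.pi) := by
  have hint : Integrable (fun p => Real.exp (2 * δ) * ek p) := ek_int.const_mul _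
  have h1 : ∀ k ∈ T, δ ^ 2 * Real.exp (-(δ * Real.sqrt ((k.1 : ℝ) ^ 2 + (k.2 : ℝ) ^ 2))) ≤
      ∫ p in cell δ k, Real.exp (2 * δ) * ek p := by
    intro k _
    have hc : ∫ _p in cell δ k, Real.exp (-(δ * Real.sqrt ((k.1 : ℝ) ^ 2 + (k.2 : ℝ) ^ 2))) =
        δ ^ 2 * Real.exp (-(δ * Real.sqrt ((k.1 : ℝ) ^ 2 + (k.2 : ℝ) ^ 2))) := by
      rw [setIntegral_const, Measure.real, cell_vol δ hδ, ENNReal.toReal_ofReal (by positivity),
        smul_eq_mul]
    rw [← hc]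
    apply setIntegral_mono_on _ hint.integrableOn (cell_meas δ k)
    · intro p hp
      exact cell_low δ hδ k p hp
    · exact integrableOn_const (by rw [cell_vol δ hδ]; exact ENNReal.ofReal_ne_top) enorm_ne_top
  rw [Finset.mul_sum]
  refine (Finset.sum_le_sum h1).trans ?_
  rw [← integral_biUnion_finset T (fun k _ => cell_meas δ k)
    (fun k _ l _ hkl => cell_disj δ hδ hkl) (fun k _ => hint.integrableOn)]
  refine (setIntegral_le_integral hint ?_).trans (le_of_eq ?_)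
  · refine Eventually.of_forall fun p => ?_
    show 0 ≤ Real.exp (2 * δ) * ek p
    unfold ek
    positivity
  · rw [integral_const_mul, ek_integral]

lemma grid_sum_le (δ : ℝ) (hδ : 0 < δ) (N : ℕ) (i : Fin N × Fin N) :
    δ ^ 2 * ∑ j : Fin N × Fin N, Real.exp (-(δ * Real.sqrt (((i.1 : ℝ) - j.1) ^ 2 +
      ((i.2 : ℝ) - j.2) ^ 2))) ≤ Real.exp (2 * δ) * (2 * Real.pi) := by
  classical
  have h := cell_sum δ hδ (Finset.univ.image (fun j : Fin N × Fin N =>
    (((i.1 : ℕ) : ℤ) - ((j.1 : ℕ) : ℤ), ((i.2 : ℕ) : ℤ) - ((j.2 : ℕ) : ℤ))))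
  rw [Finset.sum_image] at h
  · push_cast at h
    exact h
  · intro j _ j' _ hjj
    simp only [Prod.mk.injEq] at hjj
    obtain ⟨h1, h2⟩ := hjj
    apply Prod.ext
    · apply Fin.ext; omega
    · apply Fin.ext; omega

lemma sq_lower_N (t : ℝ) (ht : 0 < t) (N : ℕ) (hN : 0 < N) :
    t ^ 2 * Real.exp (-(2 * (t / N))) / (2 * Real.pi) ≤ Mg (RR 0 t 0 t) := by
  have hN' : (0 : ℝ) < N := by exact_mod_cast hN
  set δ := t / N with hδ
  have hδ0 : 0 < δ := by positivity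
  have hNδ : N * δ = t := by rw [hδ]; field_simp
  let P : Fin N × Fin N → E2 := fun i => !₂[(i.1 : ℝ) * δ, (i.2 : ℝ) * δ]
  have hd : ∀ i j, dist (P i) (P j) = δ * Real.sqrt (((i.1 : ℝ) - j.1) ^ 2 +
      ((i.2 : ℝ) - j.2) ^ 2) := by
    intro i j
    rw [dist_E2]
    have e : (P i 0 - P j 0) ^ 2 + (P i 1 - P j 1) ^ 2 = δ ^ 2 * ((((i.1 : ℕ) : ℝ) - ((j.1 : ℕ) : ℝ)) ^ 2 +
      (((i.2 : ℕ) : ℝ) - ((j.2 : ℕ) : ℝ)) ^ 2) := by
      simp only [P]
      simp
      ring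
    rw [e, Real.sqrt_mul (by positivity), Real.sqrt_sq hδ0.le]
  have hinj : Function.Injective P := by
    intro i j h
    have h1 := congrArg (fun p : E2 => p 0) h
    have h2 := congrArg (fun p : E2 => p 1) h
    simp only [P] at h1 h2
    simp at h1 h2
    apply Prod.ext
    · rcases h1 with h1 | h1
      · exact Fin.ext h1
      · exact absurd h1 hδ0.ne'
    · rcases h2 with h2 | h2
      · exact Fin.ext h2
      · exact absurd h2 hδ0.ne'
  have hmem : ∀ i, P i ∈ RR 0 t 0 t := by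
    intro i
    have h1 : ((i.1 : ℕ) : ℝ) ≤ N := by exact_mod_cast i.1.2.le
    have h2 : ((i.2 : ℕ) : ℝ) ≤ N := by exact_mod_cast i.2.2.le
    have h3 : ((i.1 : ℕ) : ℝ) * δ ≤ t := by
      rw [← hNδ]; exact mul_le_mul_of_nonneg_right h1 hδ0.le
    have h4 : ((i.2 : ℕ) : ℝ) * δ ≤ t := by
      rw [← hNδ]; exact mul_le_mul_of_nonneg_right h2 hδ0.le
    refine ⟨?_, ?_, ?_, ?_⟩
    · simp only [P]; simp; positivity
    · simp only [P]; simpa using h3
    · simp only [P]; simp; positivity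
    · simp only [P]; simpa using h4
  have h := Mg_lower (RR 0 t 0 t) P hinj 0 t 0 t rfl hmem
  rw [Fintype.card_prod, Fintype.card_fin] at h
  have h1 : δ ^ 2 * ∑ i : Fin N × Fin N, ∑ j : Fin N × Fin N, Real.exp (-dist (P i) (P j)) ≤
      (N * N : ℝ) * (Real.exp (2 * δ) * (2 * Real.pi)) := by
    rw [Finset.mul_sum]
    calc ∑ i : Fin N × Fin N, δ ^ 2 * ∑ j : Fin N × Fin N, Real.exp (-dist (P i) (P j)) ≤
        ∑ _i : Fin N × Fin N, Real.exp (2 * δ) * (2 * Real.pi) := by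
          refine Finset.sum_le_sum fun i _ => ?_
          simp_rw [hd]
          exact grid_sum_le δ hδ0 N i
      _ = (N * N : ℝ) * (Real.exp (2 * δ) * (2 * Real.pi)) := by simp
  have hM := Mg_nonneg (RR 0 t 0 t)
  push_cast at h
  have h2 : δ ^ 2 * ((N : ℝ) * N) ^ 2 ≤ Mg (RR 0 t 0 t) *
      ((N * N : ℝ) * (Real.exp (2 * δ) * (2 * Real.pi))) := by
    calc δ ^ 2 * ((N : ℝ) * N) ^ 2 ≤ δ ^ 2 * (Mg (RR 0 t 0 t) *
        ∑ i : Fin N × Fin N, ∑ j : Fin N × Fin N, Real.exp (-dist (P i) (P j))) :=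
          mul_le_mul_of_nonneg_left h (by positivity)
      _ = Mg (RR 0 t 0 t) * (δ ^ 2 *
        ∑ i : Fin N × Fin N, ∑ j : Fin N × Fin N, Real.exp (-dist (P i) (P j))) := by ring
      _ ≤ _ := mul_le_mul_of_nonneg_left h1 hM
  have h3 : (N * N : ℝ) * (t ^ 2) ≤ (N * N : ℝ) * (Mg (RR 0 t 0 t) *
      (Real.exp (2 * δ) * (2 * Real.pi))) := by
    have e : (N * N : ℝ) * (t ^ 2) = δ ^ 2 * ((N : ℝ) * N) ^ 2 := by rw [← hNδ]; ring
    rw [e]
    refine h2.trans (le_of_eq ?_)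
    ring
  have h4 := le_of_mul_le_mul_left h3 (by positivity)
  have hpi := Real.pi_pos
  rw [div_le_iff₀ (by positivity)]
  have h5 := mul_le_mul_of_nonneg_right h4 (Real.exp_pos (-(2 * δ))).le
  refine h5.trans (le_of_eq ?_)
  have h6 : Real.exp (2 * δ) * Real.exp (-(2 * δ)) = 1 := by
    rw [← Real.exp_add]; simp
  calc Mg (RR 0 t 0 t) * (Real.exp (2 * δ) * (2 * Real.pi)) * Real.exp (-(2 * δ)) =
      Mg (RR 0 t 0 t) * (2 * Real.pi) * (Real.exp (2 * δ) * Real.exp (-(2 * δ))) := by ring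
    _ = Mg (RR 0 t 0 t) * (2 * Real.pi) := by rw [h6, mul_one]

theorem sq_lower (t : ℝ) (ht : 0 < t) : t ^ 2 / (2 * Real.pi) ≤ Mg (RR 0 t 0 t) := by
  have h1 : Tendsto (fun N : ℕ => t ^ 2 * Real.exp (-(2 * (t / N))) / (2 * Real.pi)) atTop
      (𝓝 (t ^ 2 * Real.exp (-(2 * 0)) / (2 * Real.pi))) := by
    apply Tendsto.div_const
    apply Tendsto.const_mul
    apply (Real.continuous_exp.tendsto _).comp
    apply Tendsto.neg
    apply Tendsto.const_mul
    exact tendsto_const_div_atTop_nhds_zero_nat t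
  simp only [mul_zero, neg_zero, Real.exp_zero, mul_one] at h1
  apply le_of_tendsto h1
  filter_upwards [eventually_gt_atTop 0] with N hN
  exact sq_lower_N t ht N hN

end Pool.Agent.H506R3.MagB
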