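import Mathlib
import Pool.Agent.H506R3.MagB.M7

set_option autoImplicit false

/-!
Assembly.
-/

namespace Pool.Agent.H506R3.MagB

open MeasureTheory Set Filter Topology
open scoped Pointwise

lemma RR_convex (a b c d : ℝ) : Convex ℝ (RR a b c d) := by
  rintro p ⟨h1, h2, h3, h4⟩ q ⟨k1, k2, k3, k4⟩ u v hu hv huv
  have e0 : (u • p + v • q : E2) 0 = u * p 0 + v * q 0 := by simp
  have e1 : (u • p + v • q : E2) 1 = u * p 1 + v * q 1 := by simp
  have hv' : v = 1 - u := by linarith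
  refine ⟨?_, ?_, ?_, ?_⟩
  · rw [e0, hv']; nlinarith
  · rw [e0, hv']; nlinarith
  · rw [e1, hv']; nlinarith
  · rw [e1, hv']; nlinarith

lemma RR_compact (a b c d : ℝ) : IsCompact (RR a b c d) := by
  apply Metric.isCompact_of_isClosed_isBounded
  · have h0 : Continuous (fun p : E2 => p 0) := by fun_prop
    have h1 : Continuous (fun p : E2 => p 1) := by fun_prop
    have e : RR a b c d = {p : E2 | a ≤ p 0} ∩ ({p : E2 | p 0 ≤ b} ∩ ({p : E2 | c ≤ p 1} ∩
        {p : E2 | p 1 ≤ d})) := by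
      ext p
      rfl
    rw [e]
    exact (isClosed_le continuous_const h0).inter ((isClosed_le h0 continuous_const).inter
      ((isClosed_le continuous_const h1).inter (isClosed_le h1 continuous_const)))
  · rw [Metric.isBounded_iff]
    refine ⟨Real.sqrt ((b - a) ^ 2 + (d - c) ^ 2), ?_⟩
    rintro p ⟨h1, h2, h3, h4⟩ q ⟨k1, k2, k3, k4⟩
    rw [dist_E2]
    apply Real.sqrt_le_sqrt
    have g1 : (p 0 - q 0) ^ 2 ≤ (b - a) ^ 2 := by
      apply sq_le_sq'
      · linarith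
      · linarith
    have g2 : (p 1 - q 1) ^ 2 ≤ (d - c) ^ 2 := by
      apply sq_le_sq'
      · linarith
      · linarith
    linarith

lemma RR_smul (t : ℝ) (ht : 0 < t) (a b c d : ℝ) :
    t • RR a b c d = RR (t * a) (t * b) (t * c) (t * d) := by
  ext p
  rw [mem_smul_set]
  constructor
  · rintro ⟨q, ⟨h1, h2, h3, h4⟩, rfl⟩
    have e0 : (t • q : E2) 0 = t * q 0 := by simp
    have e1 : (t • q : E2) 1 = t * q 1 := by simp
    refine ⟨?_, ?_, ?_, ?_⟩
    · rw [e0]; exact mul_le_mul_of_nonneg_left h1 ht.le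
    · rw [e0]; exact mul_le_mul_of_nonneg_left h2 ht.le
    · rw [e1]; exact mul_le_mul_of_nonneg_left h3 ht.le
    · rw [e1]; exact mul_le_mul_of_nonneg_left h4 ht.le
  · rintro ⟨h1, h2, h3, h4⟩
    refine ⟨t⁻¹ • p, ⟨?_, ?_, ?_, ?_⟩, by rw [smul_smul, mul_inv_cancel₀ ht.ne', one_smul]⟩
    · have e0 : (t⁻¹ • p : E2) 0 = t⁻¹ * p 0 := by simp
      rw [e0, ← div_eq_inv_mul, le_div_iff₀ ht]; linarith
    · have e0 : (t⁻¹ • p : E2) 0 = t⁻¹ * p 0 := by simp
      rw [e0, ← div_eq_inv_mul, div_le_iff₀ ht]; linarith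
    · have e0 : (t⁻¹ • p : E2) 1 = t⁻¹ * p 1 := by simp
      rw [e0, ← div_eq_inv_mul, le_div_iff₀ ht]; linarith
    · have e0 : (t⁻¹ • p : E2) 1 = t⁻¹ * p 1 := by simp
      rw [e0, ← div_eq_inv_mul, div_le_iff₀ ht]; linarith

lemma RR_union_h (a m b c d : ℝ) (h1 : a ≤ m) (h2 : m ≤ b) :
    RR a m c d ∪ RR m b c d = RR a b c d := by
  ext p
  constructor
  · rintro (⟨k1, k2, k3, k4⟩ | ⟨k1, k2, k3, k4⟩)
    · exact ⟨k1, k2.trans h2, k3, k4⟩
    · exact ⟨h1.trans k1, k2, k3, k4⟩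
  · rintro ⟨k1, k2, k3, k4⟩
    rcases le_total (p 0) m with h | h
    · exact Or.inl ⟨k1, h, k3, k4⟩
    · exact Or.inr ⟨h, k2, k3, k4⟩

lemma RR_inter_h (a m b c d : ℝ) (h1 : a ≤ m) (h2 : m ≤ b) :
    RR a m c d ∩ RR m b c d = RR m m c d := by
  ext p
  constructor
  · rintro ⟨⟨k1, k2, k3, k4⟩, ⟨l1, l2, l3, l4⟩⟩
    exact ⟨l1, k2, k3, k4⟩
  · rintro ⟨k1, k2, k3, k4⟩
    exact ⟨⟨h1.trans k1, k2, k3, k4⟩, ⟨k1, k2.trans h2, k3, k4⟩⟩

lemma RR_union_v (a b c m d : ℝ) (h1 : c ≤ m) (h2 : m ≤ d) :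
    RR a b c m ∪ RR a b m d = RR a b c d := by
  ext p
  constructor
  · rintro (⟨k1, k2, k3, k4⟩ | ⟨k1, k2, k3, k4⟩)
    · exact ⟨k1, k2, k3, k4.trans h2⟩
    · exact ⟨k1, k2, h1.trans k3, k4⟩
  · rintro ⟨k1, k2, k3, k4⟩
    rcases le_total (p 1) m with h | h
    · exact Or.inl ⟨k1, k2, k3, h⟩
    · exact Or.inr ⟨k1, k2, h, k4⟩

lemma RR_inter_v (a b c m d : ℝ) (h1 : c ≤ m) (h2 : m ≤ d) :
    RR a b c m ∩ RR a b m d = RR a b m m := by
  ext p
  constructor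
  · rintro ⟨⟨k1, k2, k3, k4⟩, ⟨l1, l2, l3, l4⟩⟩
    exact ⟨k1, k2, l3, k4⟩
  · rintro ⟨k1, k2, k3, k4⟩
    exact ⟨⟨k1, k2, h1.trans k3, k4⟩, ⟨k1, k2, k3, k4.trans h2⟩⟩

/-- numerical contradiction -/
lemma numeric (G : ℝ → ℝ) (h1 : ∀ᶠ t in atTop, G (2 * t) + 2 * t - 4 * G t ≤ 1)
    (h2 : ∀ t, 0 < t → t ^ 2 / (2 * Real.pi) ≤ G t)
    (h3 : ∀ᶠ t in atTop, G t ≤ (t + 3135 / 1000) ^ 2 / (2 * Real.pi)) : False := by
  obtain ⟨T0, hT0⟩ := eventually_atTop.1 (h1.and h3)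
  set T := max T0 2000 with hT
  have hpi := Real.pi_pos
  have hpi4 := Real.pi_gt_d4
  have claim : ∀ k : ℕ, ∀ t, T ≤ t → t * (1 - (1 / 2) ^ k) - 1 ≤ G t - t ^ 2 / (2 * Real.pi) := by
    intro k
    induction k with
    | zero =>
      intro t ht
      have ht0 : 0 < t := by
        have : (2000 : ℝ) ≤ T := le_max_right _ _
        linarith
      have := h2 t ht0
      simp only [pow_zero, sub_self, mul_zero]
      linarith
    | succ k ih =>
      intro t ht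
      have ht0 : 0 < t := by
        have : (2000 : ℝ) ≤ T := le_max_right _ _
        linarith
      have h4 := ih (2 * t) (by linarith)
      have h5 := (hT0 t ((le_max_left _ _).trans ht)).1
      have e : (2 * t) ^ 2 / (2 * Real.pi) = 4 * (t ^ 2 / (2 * Real.pi)) := by ring
      rw [e] at h4
      have e2 : t * (1 - (1 / 2) ^ (k + 1)) = t - t * (1 / 2) ^ k / 2 := by
        rw [pow_succ]; ring
      rw [e2]
      nlinarith
  have hTT : (2000 : ℝ) ≤ T := le_max_right _ _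
  have h6 : T - 1 ≤ G T - T ^ 2 / (2 * Real.pi) := by
    have hl : Tendsto (fun k : ℕ => T * (1 - (1 / 2 : ℝ) ^ k) - 1) atTop (𝓝 (T * (1 - 0) - 1)) := by
      apply Tendsto.sub_const
      apply Tendsto.const_mul
      apply Tendsto.const_sub
      exact tendsto_pow_atTop_nhds_zero_of_lt_one (by norm_num) (by norm_num)
    rw [sub_zero, mul_one] at hl
    exact le_of_tendsto hl (Eventually.of_forall fun k => claim k T le_rfl)
  have h7 := (hT0 T (le_max_left _ _)).2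
  have h8 : (T + 3135 / 1000) ^ 2 / (2 * Real.pi) - T ^ 2 / (2 * Real.pi) =
      (627 / 100 * T + (3135 / 1000) ^ 2) / (2 * Real.pi) := by ring
  have h9 : T - 1 ≤ (627 / 100 * T + (3135 / 1000) ^ 2) / (2 * Real.pi) := by
    rw [← h8]; linarith
  rw [le_div_iff₀ (by positivity)] at h9
  nlinarith

theorem final (h : ∀ A B : Set E2,
        IsCompact A → IsCompact B → Convex ℝ A → Convex ℝ B → Convex ℝ (A ∪ B) →
        Tendsto (fun t : ℝ => Mg (t • (A ∪ B)) + Mg (t • (A ∩ B)) - Mg (t • A) - Mg (t • B))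
          atTop (𝓝 0)) : False := by
  have T1 := h (RR (-1) 0 (-1) 1) (RR 0 1 (-1) 1) (RR_compact _ _ _ _) (RR_compact _ _ _ _)
    (RR_convex _ _ _ _) (RR_convex _ _ _ _)
    (by rw [RR_union_h _ _ _ _ _ (by norm_num) (by norm_num)]; exact RR_convex _ _ _ _)
  have T2 := h (RR (-1) 0 (-1) 0) (RR (-1) 0 0 1) (RR_compact _ _ _ _) (RR_compact _ _ _ _)
    (RR_convex _ _ _ _) (RR_convex _ _ _ _)
    (by rw [RR_union_v _ _ _ _ _ (by norm_num) (by norm_num)]; exact RR_convex _ _ _ _)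
  have T3 := h (RR 0 1 (-1) 0) (RR 0 1 0 1) (RR_compact _ _ _ _) (RR_compact _ _ _ _)
    (RR_convex _ _ _ _) (RR_convex _ _ _ _)
    (by rw [RR_union_v _ _ _ _ _ (by norm_num) (by norm_num)]; exact RR_convex _ _ _ _)
  rw [RR_union_h _ _ _ _ _ (by norm_num) (by norm_num),
    RR_inter_h _ _ _ _ _ (by norm_num) (by norm_num)] at T1
  rw [RR_union_v _ _ _ _ _ (by norm_num) (by norm_num),
    RR_inter_v _ _ _ _ _ (by norm_num) (by norm_num)] at T2 T3
  have T := (T1.add T2).add T3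
  rw [add_zero, add_zero] at T
  apply numeric (fun t => Mg (RR 0 t 0 t))
  · have h1 := T.eventually (gt_mem_nhds (show (0 : ℝ) < 1 by norm_num))
    filter_upwards [h1, eventually_gt_atTop (0 : ℝ)] with t ht ht0
    simp only [RR_smul t ht0, mul_neg, mul_one, mul_zero] at ht
    have v1 := vert_lower 0 (-t) t (by linarith)
    have v2 := horiz_lower (-t) 0 0 (by linarith)
    have v3 := horiz_lower 0 t 0 ht0
    have s1 : Mg (RR (-t) t (-t) t) = Mg (RR 0 (2 * t) 0 (2 * t)) := by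
      rw [← Mg_tr (-t) t (-t) t t t]
      congr 2 <;> ring
    have s2 : Mg (RR (-t) 0 (-t) 0) = Mg (RR 0 t 0 t) := by
      rw [← Mg_tr (-t) 0 (-t) 0 t t]
      congr 2 <;> ring
    have s3 : Mg (RR (-t) 0 0 t) = Mg (RR 0 t 0 t) := by
      rw [← Mg_tr (-t) 0 0 t t 0]
      congr 2 <;> ring
    have s4 : Mg (RR 0 t (-t) 0) = Mg (RR 0 t 0 t) := by
      rw [← Mg_tr 0 t (-t) 0 0 t]
      congr 2 <;> ring
    rw [s1, s2, s3, s4] at ht
    linarith
  · intro t ht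
    exact sq_lower t ht
  · filter_upwards [EE_eventually, eventually_gt_atTop (0 : ℝ)] with t ht ht0
    have h1 := Mg_sq_le 0 0 t ht0.le
    rw [zero_add] at h1
    refine h1.trans ?_
    unfold KK
    have hE0 : 0 ≤ EE t := integral_nonneg fun s => mul_nonneg (sq_nonneg _) (Pp_pos s).le
    have hpi := Real.pi_pos
    have h2 : EE t ^ 2 ≤ (2 * Real.pi * (t + 3135 / 1000)) ^ 2 := pow_le_pow_left₀ hE0 ht 2
    calc EE t ^ 2 / (8 * Real.pi ^ 3) ≤ (2 * Real.pi * (t + 3135 / 1000)) ^ 2 / (8 * Real.pi ^ 3) := by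
          apply div_le_div_of_nonneg_right h2 (by positivity)
      _ = (t + 3135 / 1000) ^ 2 / (2 * Real.pi) := by
          field_simp
          ring

end Pool.Agent.H506R3.MagB
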